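import Pool.Agent.PB.G.Cap
import Pool.Agent.PB.P.Expl
import Pool.Agent.PB.Meas
import Pool.Agent.PB.BK
import Pool.Agent.PB.Russo

/-!
# PROJECT PB, Section 12.3 (Aizenman-Barsky inequality): definitions

`L` = a set of edges (finite in most statements), `D` = set of sources, `p` = level, `h` = ghost field.
`O = opn p ω ∩ L`, `G = ghost false h ω`, cluster of the sources = `ClS O D` (helper88's G/Base).
* `EvG L D p h`: `D → G` in `O`; `fF L D p h` its probability as a real number;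
* `Ev1`: exactly one green vertex reachable from `D`;
* `Ev2`: two edge-disjoint connections from `D` (resp. `D1`, `D2`) to two distinct green vertices;
* `Ev3`: there is a pivotal edge `(u,v)` and, off `K`, two edge-disjoint connections from `v` to two
  distinct green vertices;
* `PivEv L D p h e`: `D → G` when `e` is added to, but not when `e` is removed from, `O`.
-/

set_option autoImplicit false
open MeasureTheory Filter Topology
open scoped ENNReal BigOperators

namespace Pool.Agent.PB.AB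

variable {d : ℕ}

/-- `D → G_h` in `O_p ∩ L` -/
def EvG (L : Set (Sym2 (V d))) (D : Set (V d)) (p h : ℝ) : Set (Om d) :=
  {ω | (ClS (opn p ω ∩ L) D ∩ ghost false h ω).Nonempty}

noncomputable def fF (L : Set (Sym2 (V d))) (D : Set (V d)) (p h : ℝ) : ℝ :=
  (Pr d (EvG L D p h)).toReal

/-- exactly one green vertex is reachable from `D` -/
def Ev1 (L : Set (Sym2 (V d))) (D : Set (V d)) (p h : ℝ) : Set (Om d) :=
  {ω | ∃ t, ClS (opn p ω ∩ L) D ∩ ghost false h ω = {t}}

/-- edge-disjoint connections `D1 → t`, `D2 → t'`, `t ≠ t'` green -/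
def Ev2 (L : Set (Sym2 (V d))) (D1 D2 : Set (V d)) (p h : ℝ) : Set (Om d) :=
  {ω | ∃ a ∈ D1, ∃ a' ∈ D2, ∃ t ∈ ghost false h ω, ∃ t' ∈ ghost false h ω, t ≠ t' ∧
    DisjConn (opn p ω ∩ L) ![(a, t), (a', t')]}

/-- a pivotal edge followed by two edge-disjoint connections to distinct green vertices -/
def Ev3 (L : Set (Sym2 (V d))) (D : Set (V d)) (p h : ℝ) : Set (Om d) :=
  {ω | ∃ u v, Piv (opn p ω ∩ L) D (ghost false h ω) u v ∧
    ∃ t ∈ ghost false h ω, ∃ t' ∈ ghost false h ω, t ≠ t' ∧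
      DisjConn (off (opn p ω ∩ L) (ClS (del1 (opn p ω ∩ L) s(u, v)) D)) ![(v, t), (v, t')]}

/-- `e` is pivotal for `D → G` -/
def PivEv (L : Set (Sym2 (V d))) (D : Set (V d)) (p h : ℝ) (e : Sym2 (V d)) : Set (Om d) :=
  {ω | (ClS (insert e (opn p ω ∩ L)) D ∩ ghost false h ω).Nonempty ∧
    ¬ (ClS (del1 (opn p ω ∩ L) e) D ∩ ghost false h ω).Nonempty}

/-- the decomposition (from helper88's `cap_dec`) -/
theorem EvG_subset (L : Set (Sym2 (V d))) (D : Set (V d)) (p h : ℝ) :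
    EvG L D p h ⊆ Ev1 L D p h ∪ Ev2 L D D p h ∪ Ev3 L D p h := by
  intro ω hω
  by_cases hn : (ClS (opn p ω ∩ L) D ∩ ghost false h ω).Nontrivial
  · rcases cap_dec hn with ⟨a, ha, a', ha', t, ht, t', ht', hne, hc⟩ | ⟨u, v, hp, t, ht, t', ht', hne, hc⟩
    · exact Or.inl (Or.inr ⟨a, ha, a', ha', t, ht, t', ht', hne, hc⟩)
    · exact Or.inr ⟨u, v, hp, t, ht, t', ht', hne, hc⟩
  · refine Or.inl (Or.inl ?_)
    obtain ⟨t, ht⟩ := (hω : (ClS (opn p ω ∩ L) D ∩ ghost false h ω).Nonempty)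
    refine ⟨t, ?_⟩
    rw [Set.not_nontrivial_iff] at hn
    exact hn.eq_singleton_of_mem ht

/-! ### monotonicity and measurability -/

theorem ghost_mono {b : Bool} {h h' : ℝ} (hh : h ≤ h') (ω : Om d) : ghost b h ω ⊆ ghost b h' ω := by
  intro v hv
  have h1 : Real.exp (-h') ≤ Real.exp (-h) := Real.exp_le_exp.2 (by linarith)
  exact le_trans (show ((ω (Sum.inr (v, b)) : unitInterval) : ℝ) ≤ 1 - Real.exp (-h) from hv)
    (by linarith)

theorem EvG_mono {L L' : Set (Sym2 (V d))} (hL : L ⊆ L') {D D' : Set (V d)} (hD : D ⊆ D')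
    {p p' : ℝ} (hp : p ≤ p') {h h' : ℝ} (hh : h ≤ h') : EvG L D p h ⊆ EvG L' D' p' h' := by
  rintro ω ⟨t, h1, h2⟩
  refine ⟨t, ClS_mono_right _ hD (ClS_mono ?_ _ h1), ghost_mono hh ω h2⟩
  exact fun e he => ⟨opn_mono hp ω he.1, hL he.2⟩

theorem fF_nonneg (L : Set (Sym2 (V d))) (D : Set (V d)) (p h : ℝ) : 0 ≤ fF L D p h :=
  ENNReal.toReal_nonneg

theorem fF_le_one (L : Set (Sym2 (V d))) (D : Set (V d)) (p h : ℝ) : fF L D p h ≤ 1 := by
  have := ENNReal.toReal_mono ENNReal.one_ne_top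
    (prob_le_one (μ := Pr d) (s := EvG L D p h))
  simpa [fF] using this

theorem fF_mono {L L' : Set (Sym2 (V d))} (hL : L ⊆ L') {D D' : Set (V d)} (hD : D ⊆ D')
    {p p' : ℝ} (hp : p ≤ p') {h h' : ℝ} (hh : h ≤ h') : fF L D p h ≤ fF L' D' p' h' :=
  ENNReal.toReal_mono (measure_ne_top _ _) (measure_mono (EvG_mono hL hD hp hh))

theorem MES.clS {Ω W : Type*} [MeasurableSpace Ω] [Countable W] {S : Ω → Set (Sym2 W)}
    (hS : MES S) (D : Set W) : MVS (fun ω => ClS (S ω) D) := fun y => by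
  have : {ω | y ∈ ClS (S ω) D} = ⋃ a : W, ⋃ _ : a ∈ D, {ω | Rch (S ω) a y} := by
    ext ω; simp [ClS]
  rw [this]
  exact MeasurableSet.iUnion fun a => MeasurableSet.iUnion fun _ => hS.rch a y

theorem opnL_MES (p : ℝ) (L : Set (Sym2 (V d))) : MES (fun ω : Om d => opn p ω ∩ L) :=
  (opn_MES p).inter (MES.const L)

theorem measurableSet_nonempty {S : Om d → Set (Sym2 (V d))} (hS : MES S) (D : Set (V d)) (h : ℝ) :
    MeasurableSet {ω : Om d | (ClS (S ω) D ∩ ghost false h ω).Nonempty} := by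
  have := (MES.clS hS D).inter_nonempty (ghost_MVS (d := d) false h)
  have h2 : {ω : Om d | (ClS (S ω) D ∩ ghost false h ω).Nonempty} =
      {ω | ∃ t ∈ ghost false h ω, t ∈ ClS (S ω) D} := by
    ext ω
    constructor
    · rintro ⟨t, h1, h2⟩; exact ⟨t, h2, h1⟩
    · rintro ⟨t, h1, h2⟩; exact ⟨t, h2, h1⟩
  rw [h2]; exact this

theorem measurableSet_EvG (L : Set (Sym2 (V d))) (D : Set (V d)) (p h : ℝ) :
    MeasurableSet (EvG L D p h) := measurableSet_nonempty (opnL_MES p L) D h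

theorem MES.insert {Ω W : Type*} [MeasurableSpace Ω] {S : Ω → Set (Sym2 W)} (hS : MES S)
    (e : Sym2 W) : MES (fun ω => insert e (S ω)) := fun f => by
  have : {ω | f ∈ Insert.insert e (S ω)} = {_ω | f = e} ∪ {ω | f ∈ S ω} := by
    ext ω; simp
  rw [this]
  exact (MeasurableSet.const _).union (hS f)

theorem measurableSet_PivEv (L : Set (Sym2 (V d))) (D : Set (V d)) (p h : ℝ) (e : Sym2 (V d)) :
    MeasurableSet (PivEv L D p h e) :=
  (measurableSet_nonempty (MES.insert (opnL_MES p L) e) D h).inter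
    (measurableSet_nonempty ((opnL_MES p L).del1 e) D h).compl

end Pool.Agent.PB.AB
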