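import Pool.Agent.PB.AB.Defs

/-!
# PROJECT PB, module AB-Lim: from finite boxes to infinite volume, and `h → 0` (Section 12.3)

`LU n U` = lattice edges with both endpoints in the box `[-n,n]^d` and outside `U` (a finset).
`gF U D p h = P(D → G_h off U)`, `gI0 U D p = P(some a ∈ D has an infinite cluster off U)`.

PLAN.
* `mem_LU`: membership. * `LU_mono`. * `fF_tendsto`: the events `EvG (LU n U) D p h` increase in `n`
  and their union is `{ω | (ClS (off (opn p ω) U) D ∩ ghost false h ω).Nonempty}` (a connection in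
  `off (opn p ω) U` uses finitely many edges, `Rch.exists_finite`; each lattice edge with endpoints
  outside `U` is in `LU n U` for large `n`); `tendsto_measure_iUnion_atTop`,
  `ENNReal.tendsto_toReal`.
* `gF_tendsto`: `h_k = (1/2)^k`. With `C ω = ClS (off (opn p ω) U) D`:
  `Pr {C ∩ G_h ≠ ∅} = ∫⁻ (1 - ex h (C ω))` (`lintegral_ghost_hit` of P/Expl, `F = 1`; `C` does not
  depend on the ghosts), and `1 - ex h_k (C ω) → 1` if `C ω` is infinite (it is `= 1`), `→ 0` if
  finite; dominated convergence (`tendsto_lintegral_of_dominated_convergence`, bound 1). `C ω` is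
  infinite iff for some `a ∈ D` the set `Cl (off (opn p ω) U) a` is infinite (`D` finite).
  (Alternative: decreasing events + the label of some vertex would be 0.)
* `gI0_le`: `gI0 U D p ≤ gF U D p h` for `h > 0` (same formula: `ex h (C ω) = 0` when infinite).
-/

set_option autoImplicit false
open MeasureTheory Filter Topology
open scoped ENNReal BigOperators

namespace Pool.Agent.PB.AB

variable {d : ℕ}

/-- the box as a finset -/
noncomputable def bxF (d : ℕ) (n : ℕ) : Finset (V d) :=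
  Fintype.piFinset (fun _ : Fin d => Finset.Icc (-(n : ℤ)) n)

/-- lattice edges inside the box and outside `U` -/
noncomputable def LU (n : ℕ) (U : Set (V d)) : Finset (Sym2 (V d)) := by
  classical
  exact Finset.filter (fun e : Sym2 (V d) => e ∈ (lat d).edgeSet ∧ ∀ x ∈ e, x ∉ U)
    (Finset.image (fun q : V d × V d => s(q.1, q.2)) (bxF d n ×ˢ bxF d n))

noncomputable def gF (U D : Set (V d)) (p h : ℝ) : ℝ :=
  (Pr d {ω : Om d | (ClS (off (opn p ω) U) D ∩ ghost false h ω).Nonempty}).toReal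

noncomputable def gI0 (U D : Set (V d)) (p : ℝ) : ℝ :=
  (Pr d {ω : Om d | ∃ a ∈ D, (Cl (off (opn p ω) U) a).Infinite}).toReal

private theorem mem_bxF {n : ℕ} {x : V d} : x ∈ bxF d n ↔ ∀ i, -(n : ℤ) ≤ x i ∧ x i ≤ n := by
  simp only [bxF, Fintype.mem_piFinset, Finset.mem_Icc]

private theorem bxF_mono {n m : ℕ} (h : n ≤ m) {x : V d} (hx : x ∈ bxF d n) : x ∈ bxF d m := by
  rw [mem_bxF] at hx ⊢
  intro i
  have h1 := hx i
  have h2 : (n : ℤ) ≤ m := by exact_mod_cast h
  constructor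
  · linarith [h1.1]
  · linarith [h1.2]

private theorem exists_bxF (x : V d) : ∃ n, x ∈ bxF d n := by
  refine ⟨∑ i, (x i).natAbs, ?_⟩
  rw [mem_bxF]
  intro i
  have h1 : (x i).natAbs ≤ ∑ i, (x i).natAbs :=
    Finset.single_le_sum (f := fun i => (x i).natAbs) (fun _ _ => Nat.zero_le _)
      (Finset.mem_univ i)
  omega

theorem mem_LU {n : ℕ} {U : Set (V d)} {e : Sym2 (V d)} :
    e ∈ LU n U ↔ e ∈ (lat d).edgeSet ∧ (∀ x ∈ e, x ∉ U) ∧ ∀ x ∈ e, x ∈ bxF d n := by
  classical
  unfold LU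
  rw [Finset.mem_filter, Finset.mem_image]
  constructor
  · rintro ⟨⟨⟨a, b⟩, hab, rfl⟩, h1, h2⟩
    rw [Finset.mem_product] at hab
    refine ⟨h1, h2, ?_⟩
    intro x hx
    rcases Sym2.mem_iff.1 hx with rfl | rfl
    · exact hab.1
    · exact hab.2
  · rintro ⟨h1, h2, h3⟩
    refine ⟨?_, h1, h2⟩
    induction e using Sym2.ind with
    | _ a b =>
      exact ⟨(a, b), Finset.mem_product.2 ⟨h3 a (Sym2.mem_mk_left a b),
        h3 b (Sym2.mem_mk_right a b)⟩, rfl⟩

theorem LU_edge (n : ℕ) (U : Set (V d)) : ∀ e ∈ LU n U, e ∈ (lat d).edgeSet :=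
  fun _ he => (mem_LU.1 he).1

theorem LU_mono (U : Set (V d)) : Monotone (fun n => LU n U) := by
  intro n m hnm e he
  obtain ⟨h1, h2, h3⟩ := mem_LU.1 he
  exact mem_LU.2 ⟨h1, h2, fun x hx => bxF_mono hnm (h3 x hx)⟩

private theorem exists_LU {U : Set (V d)} {p : ℝ} {ω : Om d} {e : Sym2 (V d)}
    (he : e ∈ off (opn p ω) U) : ∃ n, e ∈ LU n U := by
  induction e using Sym2.ind with
  | _ a b =>
    obtain ⟨n, hn⟩ := exists_bxF a
    obtain ⟨m, hm⟩ := exists_bxF b
    obtain ⟨h1, h2⟩ := mem_off.1 he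
    refine ⟨max n m, mem_LU.2 ⟨h1.1, h2, ?_⟩⟩
    intro x hx
    rcases Sym2.mem_iff.1 hx with rfl | rfl
    · exact bxF_mono (le_max_left _ _) hn
    · exact bxF_mono (le_max_right _ _) hm

private theorem opn_inter_LU_subset (n : ℕ) (U : Set (V d)) (p : ℝ) (ω : Om d) :
    opn p ω ∩ (LU n U : Set (Sym2 (V d))) ⊆ off (opn p ω) U := fun _ he =>
  mem_off.2 ⟨he.1, (mem_LU.1 (Finset.mem_coe.1 he.2)).2.1⟩

private theorem exists_rch_LU {U : Set (V d)} {p : ℝ} {ω : Om d} {a t : V d}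
    (h : Rch (off (opn p ω) U) a t) :
    ∃ n, Rch (opn p ω ∩ (LU n U : Set (Sym2 (V d)))) a t := by
  refine Rch.induct (P := fun z => ∃ n, Rch (opn p ω ∩ (LU n U : Set (Sym2 (V d)))) a z)
    ⟨0, Rch.refl _ _⟩ ?_ h
  rintro b c _ hbc ⟨n, hn⟩
  obtain ⟨m, hm⟩ := exists_LU hbc
  refine ⟨max n m, ?_⟩
  have h1 : opn p ω ∩ (LU n U : Set (Sym2 (V d))) ⊆
      opn p ω ∩ (LU (max n m) U : Set (Sym2 (V d))) := fun e he =>
    ⟨he.1, Finset.mem_coe.2 (LU_mono U (le_max_left n m) (Finset.mem_coe.1 he.2))⟩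
  exact (hn.mono h1).tail ⟨(mem_off.1 hbc).1,
    Finset.mem_coe.2 (LU_mono U (le_max_right n m) hm)⟩

theorem fF_tendsto (U D : Set (V d)) (p h : ℝ) :
    Tendsto (fun n : ℕ => fF (LU n U : Set (Sym2 (V d))) D p h) atTop (𝓝 (gF U D p h)) := by
  have hmono : Monotone (fun n : ℕ => EvG (LU n U : Set (Sym2 (V d))) D p h) := by
    intro n m hnm
    exact EvG_mono (Finset.coe_subset.2 (LU_mono U hnm)) subset_rfl le_rfl le_rfl
  have hU : ⋃ n : ℕ, EvG (LU n U : Set (Sym2 (V d))) D p h =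
      {ω : Om d | (ClS (off (opn p ω) U) D ∩ ghost false h ω).Nonempty} := by
    ext ω
    simp only [Set.mem_iUnion]
    constructor
    · rintro ⟨n, t, h1, h2⟩
      exact ⟨t, ClS_mono (opn_inter_LU_subset n U p ω) _ h1, h2⟩
    · rintro ⟨t, ⟨a, ha, h1⟩, h2⟩
      obtain ⟨n, hn⟩ := exists_rch_LU h1
      exact ⟨n, t, ⟨a, ha, hn⟩, h2⟩
  have h1 := tendsto_measure_iUnion_atTop (μ := Pr d) hmono
  rw [hU] at h1
  exact (ENNReal.tendsto_toReal (measure_ne_top _ _)).comp h1

private theorem MVS_C (U D : Set (V d)) (p : ℝ) :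
    MVS (fun ω : Om d => ClS (off (opn p ω) U) D) :=
  MES.clS ((opn_MES p).rem (Del.ofSet U)) D

private theorem dep_C (U D : Set (V d)) (p : ℝ) (b : Bool) :
    DependsOn (fun ω : Om d => ClS (off (opn p ω) U) D) (gI d b)ᶜ := by
  have h1 := dep_opn (d := d) p Set.univ (S := (gI d b)ᶜ) (fun e _ => by simp [gI])
  intro ω ω' h
  have h2 := h1 h
  simp only [Set.inter_univ] at h2
  simp only [h2]

private theorem gF_eq (U D : Set (V d)) (p : ℝ) {h : ℝ} (hh : 0 < h) :
    gF U D p h = (∫⁻ ω, (1 - ex h (ClS (off (opn p ω) U) D)) ∂Pr d).toReal := by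
  have h1 := lintegral_ghost_hit (d := d) false hh (C := fun ω => ClS (off (opn p ω) U) D)
    (MVS_C U D p) (dep_C U D p false) (F := fun _ => 1) measurable_const (fun _ _ _ => rfl)
  simp only [one_mul, setLIntegral_const] at h1
  rw [← h1]
  unfold gF
  congr 2
  ext ω
  constructor
  · rintro ⟨t, h1, h2⟩; exact ⟨t, h2, h1⟩
  · rintro ⟨t, h1, h2⟩; exact ⟨t, h2, h1⟩

private theorem gI0_set (U : Set (V d)) (D : Finset (V d)) (p : ℝ) :
    {ω : Om d | ∃ a ∈ (D : Set (V d)), (Cl (off (opn p ω) U) a).Infinite} =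
      {ω : Om d | (ClS (off (opn p ω) U) (D : Set (V d))).Infinite} := by
  ext ω
  constructor
  · rintro ⟨a, ha, h⟩
    exact h.mono fun x hx => ⟨a, ha, hx⟩
  · intro h
    by_contra hcon
    refine h ?_
    have h1 : ClS (off (opn p ω) U) (D : Set (V d)) =
        ⋃ a ∈ (D : Set (V d)), Cl (off (opn p ω) U) a := by
      ext x
      simp only [mem_ClS, Set.mem_iUnion, mem_Cl, exists_prop]
    rw [h1]
    refine D.finite_toSet.biUnion fun a ha => ?_
    by_contra h2
    exact hcon ⟨a, ha, h2⟩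

private theorem gI0_eq (U : Set (V d)) (D : Finset (V d)) (p : ℝ) :
    gI0 U (D : Set (V d)) p = (∫⁻ ω, {ω : Om d | (ClS (off (opn p ω) U)
      (D : Set (V d))).Infinite}.indicator 1 ω ∂Pr d).toReal := by
  rw [lintegral_indicator_one (MVS_C U (D : Set (V d)) p).infinite]
  unfold gI0
  rw [gI0_set]

theorem gF_tendsto (U : Set (V d)) (D : Finset (V d)) (p : ℝ) :
    Tendsto (fun k : ℕ => gF U (D : Set (V d)) p ((1 / 2 : ℝ) ^ k)) atTop
      (𝓝 (gI0 U (D : Set (V d)) p)) := by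
  have h0 : ∀ k : ℕ, (0 : ℝ) < (1 / 2 : ℝ) ^ k := fun k => by positivity
  have hE : (fun k : ℕ => gF U (D : Set (V d)) p ((1 / 2 : ℝ) ^ k)) = fun k : ℕ =>
      (∫⁻ ω, (1 - ex ((1 / 2 : ℝ) ^ k) (ClS (off (opn p ω) U) (D : Set (V d)))) ∂Pr d).toReal := by
    funext k
    exact gF_eq U _ p (h0 k)
  rw [hE, gI0_eq]
  have hlim : Tendsto (fun k : ℕ =>
      ∫⁻ ω, (1 - ex ((1 / 2 : ℝ) ^ k) (ClS (off (opn p ω) U) (D : Set (V d)))) ∂Pr d) atTop
      (𝓝 (∫⁻ ω, {ω : Om d | (ClS (off (opn p ω) U)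
        (D : Set (V d))).Infinite}.indicator 1 ω ∂Pr d)) := by
    refine tendsto_lintegral_of_dominated_convergence (fun _ => 1) (fun k => ?_) (fun k => ?_) ?_ ?_
    · exact measurable_const.sub (measurable_ex (MVS_C U _ p))
    · exact Filter.Eventually.of_forall fun ω => tsub_le_self
    · simp
    · refine Filter.Eventually.of_forall fun ω => ?_
      by_cases hf : (ClS (off (opn p ω) U) (D : Set (V d))).Finite
      · have h1 : {ω : Om d | (ClS (off (opn p ω) U)
            (D : Set (V d))).Infinite}.indicator (1 : Om d → ℝ≥0∞) ω = 1 - 1 := by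
          rw [tsub_self]
          exact Set.indicator_of_notMem
            (fun h : (ClS (off (opn p ω) U) (D : Set (V d))).Infinite => h hf) _
        rw [h1]
        refine ENNReal.Tendsto.sub tendsto_const_nhds ?_ (Or.inl ENNReal.one_ne_top)
        have h2 : (fun k : ℕ => ex ((1 / 2 : ℝ) ^ k) (ClS (off (opn p ω) U) (D : Set (V d)))) =
            fun k : ℕ => ENNReal.ofReal (Real.exp (-((1 / 2 : ℝ) ^ k *
              ((ClS (off (opn p ω) U) (D : Set (V d))).ncard : ℝ)))) := by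
          funext k
          exact ex_fin _ hf
        rw [h2, ← ENNReal.ofReal_one, ← Real.exp_zero]
        refine ENNReal.tendsto_ofReal ((Real.continuous_exp.tendsto _).comp ?_)
        have h3 : Tendsto (fun k : ℕ => (1 / 2 : ℝ) ^ k) atTop (𝓝 0) :=
          tendsto_pow_atTop_nhds_zero_of_lt_one (by norm_num) (by norm_num)
        have h4 := (h3.mul_const ((ClS (off (opn p ω) U) (D : Set (V d))).ncard : ℝ)).neg
        simpa using h4
      · have h1 : {ω : Om d | (ClS (off (opn p ω) U)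
            (D : Set (V d))).Infinite}.indicator (1 : Om d → ℝ≥0∞) ω = 1 :=
          Set.indicator_of_mem hf _
        rw [h1]
        have h2 : (fun k : ℕ => 1 - ex ((1 / 2 : ℝ) ^ k)
            (ClS (off (opn p ω) U) (D : Set (V d)))) = fun _ => 1 := by
          funext k
          rw [ex_inf _ hf, tsub_zero]
        rw [h2]
        exact tendsto_const_nhds
  refine (ENNReal.tendsto_toReal ?_).comp hlim
  rw [lintegral_indicator_one (MVS_C U (D : Set (V d)) p).infinite]
  exact measure_ne_top _ _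

theorem gI0_le (U : Set (V d)) (D : Finset (V d)) (p : ℝ) {h : ℝ} (hh : 0 < h) :
    gI0 U (D : Set (V d)) p ≤ gF U (D : Set (V d)) p h := by
  rw [gI0_eq, gF_eq U _ p hh]
  refine ENNReal.toReal_mono ?_ (lintegral_mono fun ω => ?_)
  · refine ne_of_lt (lt_of_le_of_lt (lintegral_mono (g := fun _ => 1) fun ω => tsub_le_self) ?_)
    simp
  · by_cases hf : (ClS (off (opn p ω) U) (D : Set (V d))).Finite
    · rw [Set.indicator_of_notMem
        (fun h : (ClS (off (opn p ω) U) (D : Set (V d))).Infinite => h hf)]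
      exact zero_le
    · rw [ex_inf _ hf, tsub_zero]
      exact Set.indicator_le_self' (fun _ _ => zero_le) ω

end Pool.Agent.PB.AB
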