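import Mathlib

/-!
# PROJECT PB, module AB-Num: integration of the Aizenman-Barsky inequality (MATHLIB ONLY)

`F n k q` stands for `f_{box n}(q, h_k)`, `h_k = 2^{-k}`; `G k q` its limit `n → ∞`, `g q` the limit
`k → ∞`.
-/

set_option autoImplicit false
open Filter Topology
open scoped BigOperators

namespace Pool.Agent.PB.AB

/-- pointwise inequality for the derivative of `R φ` -/
private theorem deriv_term {pc p1 q C c3 s F D f' : ℝ} (hpc : 0 ≤ pc) (h1 : pc < p1)
    (hq1 : p1 ≤ q) (hq2 : q ≤ 1) (hC : 1 ≤ C) (hc3 : 0 < c3) (hs0 : 0 ≤ s) (hs1 : s ≤ 1)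
    (hF0 : c3 / 2 ≤ F) (hF1 : F ≤ 1) (hD : 0 ≤ D)
    (h : F ≤ 4 * D + F ^ 2 + q * (C * (s + (q - pc))) * f') :
    (-f' / F ^ 2) * (s + (q - pc)) ^ (1 / C) +
      (1 / F - 1) * (1 / C * (s + (q - pc)) ^ (1 / C - 1)) ≤
      32 / (p1 * (p1 - pc) * c3 ^ 2) * D := by
  have hFp : 0 < F := by linarith
  have hx : 0 < s + (q - pc) := by linarith
  have hq : 0 < q := by linarith
  have hp1 : 0 < p1 := by linarith
  have hCp : 0 < C := by linarith
  set x := s + (q - pc) with hxdef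
  have hxle : x ≤ 2 := by linarith
  have hxge : p1 - pc ≤ x := by linarith
  set φ := x ^ (1 / C) with hφ
  have hφ0 : 0 < φ := Real.rpow_pos_of_pos hx _
  have ha0 : 0 ≤ 1 / C := by positivity
  have ha1 : 1 / C ≤ 1 := by rw [div_le_one hCp]; exact hC
  have hφ2 : φ ≤ 2 := by
    calc φ ≤ (2 : ℝ) ^ (1 / C) := Real.rpow_le_rpow hx.le hxle ha0
      _ ≤ (2 : ℝ) ^ (1 : ℝ) := Real.rpow_le_rpow_of_exponent_le (by norm_num) ha1
      _ = 2 := by norm_num
  have hx1 : x ^ (1 / C - 1) = φ / x := by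
    rw [hφ, Real.rpow_sub hx, Real.rpow_one]
  rw [hx1]
  have hR : 0 ≤ 1 / F - 1 := by
    rw [sub_nonneg, le_div_iff₀ hFp]; linarith
  have hqCx : 0 < q * (C * x) := by positivity
  have hf : (F - F ^ 2 - 4 * D) / (q * (C * x)) ≤ f' := by
    rw [div_le_iff₀ hqCx]; linarith
  have e1 : -f' / F ^ 2 * φ ≤ -((F - F ^ 2 - 4 * D) / (q * (C * x))) / F ^ 2 * φ := by
    gcongr
  have e2 : -((F - F ^ 2 - 4 * D) / (q * (C * x))) / F ^ 2 * φ =
      -((1 / F - 1) * φ / (q * (C * x))) + 4 * D * φ / (q * (C * x) * F ^ 2) := by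
    field_simp
    ring
  have e3 : (1 / F - 1) * (1 / C * (φ / x)) ≤ (1 / F - 1) * φ / (q * (C * x)) := by
    have : (1 / F - 1) * (1 / C * (φ / x)) = (1 / F - 1) * φ / (C * x) := by
      field_simp
    rw [this]
    apply div_le_div_of_nonneg_left (by positivity) hqCx
    have : 0 < C * x := by positivity
    nlinarith
  have e4 : 4 * D * φ / (q * (C * x) * F ^ 2) ≤ 32 / (p1 * (p1 - pc) * c3 ^ 2) * D := by
    have hpp : 0 < p1 - pc := by linarith
    have hden : p1 * (p1 - pc) * (c3 / 2) ^ 2 ≤ q * (C * x) * F ^ 2 := by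
      have hCx : p1 - pc ≤ C * x := by nlinarith
      gcongr
    have hden0 : 0 < p1 * (p1 - pc) * (c3 / 2) ^ 2 := by positivity
    calc 4 * D * φ / (q * (C * x) * F ^ 2)
        ≤ 4 * D * 2 / (p1 * (p1 - pc) * (c3 / 2) ^ 2) := by
          apply div_le_div₀ (by positivity) _ hden0 hden
          gcongr
      _ = 32 / (p1 * (p1 - pc) * c3 ^ 2) * D := by
          field_simp
          ring
  linarith [e1, e2, e3, e4]

theorem ab_num {pc p1 p2 C c3 : ℝ} (hpc : 0 ≤ pc) (h1 : pc < p1) (h12 : p1 < p2) (h2 : p2 < 1)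
    (hC : 1 ≤ C) (hc3 : 0 < c3) {F : ℕ → ℕ → ℝ → ℝ} {G : ℕ → ℝ → ℝ} {g : ℝ → ℝ}
    (F0 : ∀ n k q, 0 ≤ F n k q) (F1 : ∀ n k q, F n k q ≤ 1)
    (Fq : ∀ n k q q', q ≤ q' → F n k q ≤ F n k q')
    (Fk : ∀ n k q, F n (k + 1) q ≤ F n k q)
    (hF : ∀ n k q, p1 ≤ q → q ≤ p2 → ∃ f' : ℝ, HasDerivAt (F n k) f' q ∧
      F n k q ≤ 4 * (F n k q - F n (k + 1) q) + F n k q ^ 2 +
        q * (C * (Real.sqrt ((1 / 2 : ℝ) ^ k) + (q - pc))) * f')
    (hG1 : ∀ k, Tendsto (fun n => F n k p1) atTop (𝓝 (G k p1)))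
    (hG2 : ∀ k, Tendsto (fun n => F n k p2) atTop (𝓝 (G k p2)))
    (hg1 : Tendsto (fun k => G k p1) atTop (𝓝 (g p1)))
    (hg2 : Tendsto (fun k => G k p2) atTop (𝓝 (g p2)))
    (hgG : ∀ k, g p1 ≤ G k p1) (hc : c3 ≤ g p1) :
    1 - g p2 ≤ (1 / c3) * ((p1 - pc) / (p2 - pc)) ^ (1 / C) := by
  have hp1 : 0 < p1 := by linarith
  have hCp : 0 < C := by linarith
  have hpp : 0 < p1 - pc := by linarith
  have hpp2 : 0 < p2 - pc := by linarith
  set B : ℝ := 32 / (p1 * (p1 - pc) * c3 ^ 2) with hB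
  have hB0 : 0 ≤ B := by positivity
  set s : ℕ → ℝ := fun k => Real.sqrt ((1 / 2 : ℝ) ^ k) with hs
  have hs0 : ∀ k, 0 ≤ s k := fun k => Real.sqrt_nonneg _
  have hs1 : ∀ k, s k ≤ 1 := fun k => by
    rw [hs]; simp only
    rw [Real.sqrt_le_one]
    exact pow_le_one₀ (by norm_num) (by norm_num)
  set φ : ℕ → ℝ → ℝ := fun k q => (s k + (q - pc)) ^ (1 / C) with hφ
  have hGpos1 : ∀ k, 0 < G k p1 := fun k => lt_of_lt_of_le (lt_of_lt_of_le hc3 hc) (hgG k)
  have hG12 : ∀ k, G k p1 ≤ G k p2 := fun k =>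
    le_of_tendsto_of_tendsto' (hG1 k) (hG2 k) fun n => Fq n k p1 p2 h12.le
  have hGpos2 : ∀ k, 0 < G k p2 := fun k => lt_of_lt_of_le (hGpos1 k) (hG12 k)
  set b : ℕ → ℝ := fun k =>
    (1 / G k p2 - 1) * φ k p2 - (1 / G k p1 - 1) * φ k p1 with hb
  -- Step A: finite `n`
  have stepA : ∀ K : ℕ, ∀ᶠ n in atTop,
      ∑ k ∈ Finset.range K, ((1 / F n k p2 - 1) * φ k p2 - (1 / F n k p1 - 1) * φ k p1) ≤ B := by
    intro K
    have hev : ∀ᶠ n in atTop, ∀ k ∈ Finset.range K, c3 / 2 ≤ F n k p1 := by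
      rw [Filter.eventually_all_finset]
      intro k _
      have : c3 / 2 < G k p1 := by linarith [hgG k]
      filter_upwards [(hG1 k).eventually (lt_mem_nhds this)] with n hn using le_of_lt hn
    filter_upwards [hev] with n hn
    have hFge : ∀ k ∈ Finset.range K, ∀ q, p1 ≤ q → c3 / 2 ≤ F n k q := fun k hk q hq =>
      (hn k hk).trans (Fq n k p1 q hq)
    choose! f' hf'1 hf'2 using hF n
    set H : ℝ → ℝ := fun q => ∑ k ∈ Finset.range K, (1 / F n k q - 1) * φ k q with hH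
    set H' : ℝ → ℝ := fun q => ∑ k ∈ Finset.range K,
      ((-f' k q / F n k q ^ 2) * φ k q +
        (1 / F n k q - 1) * (1 / C * (s k + (q - pc)) ^ (1 / C - 1))) with hH'
    have hder : ∀ q, p1 ≤ q → q ≤ p2 → HasDerivAt H (H' q) q := by
      intro q hq1 hq2
      rw [hH, hH']
      apply HasDerivAt.fun_sum
      intro k hk
      have hFk : 0 < F n k q := lt_of_lt_of_le (by linarith) (hFge k hk q hq1)
      have hd1 : HasDerivAt (fun q => 1 / F n k q - 1) (-f' k q / F n k q ^ 2) q := by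
        have := (hf'1 k q hq1 hq2).inv hFk.ne'
        simpa [one_div] using this.sub_const 1
      have hx : 0 < s k + (q - pc) := by have := hs0 k; linarith
      have hd2 : HasDerivAt (fun q => φ k q) (1 / C * (s k + (q - pc)) ^ (1 / C - 1)) q := by
        have hin : HasDerivAt (fun q : ℝ => s k + (q - pc)) 1 q := by
          simpa using ((hasDerivAt_id q).sub_const pc).const_add (s k)
        have := hin.rpow_const (p := 1 / C) (Or.inl hx.ne')
        rw [one_mul] at this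
        exact this
      exact hd1.fun_mul hd2
    have hle : ∀ q, p1 ≤ q → q ≤ p2 → H' q ≤ B := by
      intro q hq1 hq2
      calc H' q ≤ ∑ k ∈ Finset.range K, B * (F n k q - F n (k + 1) q) := by
            apply Finset.sum_le_sum
            intro k hk
            exact deriv_term hpc h1 hq1 (by linarith) hC hc3 (hs0 k) (hs1 k) (hFge k hk q hq1)
              (F1 n k q) (by linarith [Fk n k q]) (hf'2 k q hq1 hq2)
        _ = B * (F n 0 q - F n K q) := by
            rw [← Finset.mul_sum, Finset.sum_range_sub' (fun k => F n k q)]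
        _ ≤ B := by
            have h1 := F1 n 0 q
            have h2 := F0 n K q
            nlinarith
    have hmv : H p2 - H p1 ≤ B * (p2 - p1) := by
      apply (convex_Icc p1 p2).image_sub_le_mul_sub_of_deriv_le
        (f := H) (C := B)
      · intro q hq
        exact (hder q hq.1 hq.2).continuousAt.continuousWithinAt
      · intro q hq
        rw [interior_Icc] at hq
        exact (hder q hq.1.le hq.2.le).differentiableAt.differentiableWithinAt
      · intro q hq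
        rw [interior_Icc] at hq
        rw [(hder q hq.1.le hq.2.le).deriv]
        exact hle q hq.1.le hq.2.le
      · exact Set.left_mem_Icc.2 h12.le
      · exact Set.right_mem_Icc.2 h12.le
      · exact h12.le
    rw [Finset.sum_sub_distrib]
    have : B * (p2 - p1) ≤ B := by
      have : p2 - p1 ≤ 1 := by linarith
      nlinarith
    linarith
  -- Step B: `n → ∞`
  have stepB : ∀ K : ℕ, ∑ k ∈ Finset.range K, b k ≤ B := by
    intro K
    have htend : Tendsto (fun n => ∑ k ∈ Finset.range K,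
        ((1 / F n k p2 - 1) * φ k p2 - (1 / F n k p1 - 1) * φ k p1)) atTop
        (𝓝 (∑ k ∈ Finset.range K, b k)) := by
      apply tendsto_finsetSum
      intro k _
      apply Tendsto.sub
      · apply Tendsto.mul_const
        apply Tendsto.sub_const
        exact tendsto_const_nhds.div (hG2 k) (hGpos2 k).ne'
      · apply Tendsto.mul_const
        apply Tendsto.sub_const
        exact tendsto_const_nhds.div (hG1 k) (hGpos1 k).ne'
    exact le_of_tendsto htend (stepA K)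
  -- Step C: `k → ∞`
  have hgp1 : 0 < g p1 := lt_of_lt_of_le hc3 hc
  have hg12 : g p1 ≤ g p2 := le_of_tendsto_of_tendsto' hg1 hg2 hG12
  have hgp2 : 0 < g p2 := lt_of_lt_of_le hgp1 hg12
  have hg2le : g p2 ≤ 1 := by
    refine le_of_tendsto' hg2 fun k => ?_
    exact le_of_tendsto' (hG2 k) fun n => F1 n k p2
  have hs_tend : Tendsto s atTop (𝓝 0) := by
    have h0 : Tendsto (fun k : ℕ => ((1 / 2 : ℝ) ^ k)) atTop (𝓝 0) :=
      tendsto_pow_atTop_nhds_zero_of_lt_one (by norm_num) (by norm_num)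
    have := (Real.continuous_sqrt.tendsto 0).comp h0
    simpa [hs, Function.comp_def] using this
  have hφ_tend : ∀ q, 0 < q - pc → Tendsto (fun k => φ k q) atTop (𝓝 ((q - pc) ^ (1 / C))) := by
    intro q hq
    have h0 : Tendsto (fun k => s k + (q - pc)) atTop (𝓝 (q - pc)) := by
      simpa using hs_tend.add_const (q - pc)
    exact h0.rpow_const (Or.inl hq.ne')
  have hb_tend : Tendsto b atTop (𝓝 ((1 / g p2 - 1) * (p2 - pc) ^ (1 / C) -
      (1 / g p1 - 1) * (p1 - pc) ^ (1 / C))) := by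
    apply Tendsto.sub
    · exact ((tendsto_const_nhds.div hg2 hgp2.ne').sub_const 1).mul (hφ_tend p2 hpp2)
    · exact ((tendsto_const_nhds.div hg1 hgp1.ne').sub_const 1).mul (hφ_tend p1 hpp)
  have hces := hb_tend.cesaro
  have hBK : Tendsto (fun K : ℕ => (K : ℝ)⁻¹ * B) atTop (𝓝 0) := by
    simpa using (tendsto_inv_atTop_nhds_zero_nat (𝕜 := ℝ)).mul_const B
  have hb0 : (1 / g p2 - 1) * (p2 - pc) ^ (1 / C) - (1 / g p1 - 1) * (p1 - pc) ^ (1 / C) ≤ 0 := by
    refine le_of_tendsto_of_tendsto' hces hBK fun K => ?_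
    exact mul_le_mul_of_nonneg_left (stepB K) (by positivity)
  -- conclusion
  set y1 := (p1 - pc) ^ (1 / C) with hy1
  set y2 := (p2 - pc) ^ (1 / C) with hy2
  have hy1p : 0 < y1 := Real.rpow_pos_of_pos hpp _
  have hy2p : 0 < y2 := Real.rpow_pos_of_pos hpp2 _
  have hdiv : ((p1 - pc) / (p2 - pc)) ^ (1 / C) = y1 / y2 :=
    Real.div_rpow hpp.le hpp2.le _
  rw [hdiv]
  have hA : 1 / g p2 - 1 ≤ (1 / g p1 - 1) * (y1 / y2) := by
    rw [← mul_div_assoc, le_div_iff₀ hy2p]; linarith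
  have hA2 : 1 - g p2 ≤ 1 / g p2 - 1 := by
    rw [le_sub_iff_add_le, le_div_iff₀ hgp2]
    nlinarith [sq_nonneg (1 - g p2)]
  have hA3 : 1 / g p1 - 1 ≤ 1 / c3 := by
    have : 1 / g p1 ≤ 1 / c3 := one_div_le_one_div_of_le hc3 hc
    linarith
  calc 1 - g p2 ≤ (1 / g p1 - 1) * (y1 / y2) := hA2.trans hA
    _ ≤ 1 / c3 * (y1 / y2) := by
        apply mul_le_mul_of_nonneg_right hA3; positivity

end Pool.Agent.PB.AB
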