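import Pool.Agent.PB.AB.Defs

/-!
# PROJECT PB, module AB-Rus: the derivative of `fF` (Section 12.3)
-/

set_option autoImplicit false
open MeasureTheory Filter Topology
open scoped ENNReal BigOperators

namespace Pool.Agent.PB.AB

variable {d : ℕ}

/-- `D → G_h` in a fixed set `T` of edges -/
private def AT (D : Set (V d)) (h : ℝ) (T : Finset (Sym2 (V d))) : Set (Om d) :=
  {ω | (ClS (T : Set (Sym2 (V d))) D ∩ ghost false h ω).Nonempty}

private theorem mAT (D : Set (V d)) (h : ℝ) (T : Finset (Sym2 (V d))) :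
    MeasurableSet (AT D h T) := measurableSet_nonempty (MES.const _) D h

private theorem dAT (D : Set (V d)) (h : ℝ) (T : Finset (Sym2 (V d))) (L : Finset (Sym2 (V d))) :
    DependsOn (fun ω => ω ∈ AT D h T) ((Sum.inl '' (L : Set (Sym2 (V d))) : Set (Ix d))ᶜ) := by
  intro ω ω' hω
  have : ghost false h ω = ghost false h ω' := by
    ext v
    simp only [ghost, Set.mem_ofPred_eq]
    rw [hω (Sum.inr (v, false)) (by simp)]
  simp only [AT, Set.mem_ofPred_eq, this]

private theorem erase_eq {L : Finset (Sym2 (V d))} (hL : ∀ e ∈ L, e ∈ (lat d).edgeSet) (p : ℝ)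
    (e : Sym2 (V d)) (ω : Om d) :
    (opL (L.erase e) p ω : Set (Sym2 (V d))) = del1 (opn p ω ∩ L) e := by
  rw [coe_opL (fun f hf => hL f (Finset.mem_of_mem_erase hf))]
  ext f
  simp only [Set.mem_inter_iff, Finset.mem_coe, Finset.mem_erase, mem_del1]
  tauto

theorem fF_deriv (L : Finset (Sym2 (V d))) (hL : ∀ e ∈ L, e ∈ (lat d).edgeSet) (D : Set (V d))
    (h : ℝ) {p : ℝ} (hp0 : 0 < p) (hp1 : p < 1) :
    HasDerivAt (fun q : ℝ => fF (L : Set (Sym2 (V d))) D q h)
      (∑ e ∈ L, (Pr d (PivEv (L : Set (Sym2 (V d))) D p h e)).toReal) p := by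
  have h1 := russo L (A := AT D h) (fun T _ => mAT D h T) (fun T _ => dAT D h T L) hp0 hp1
  have h2 : (fun q : ℝ => fF (L : Set (Sym2 (V d))) D q h) =
      (fun q : ℝ => (Pr d {ω : Om d | ω ∈ AT D h (opL L q ω)}).toReal) := by
    funext q
    unfold fF EvG AT
    congr 2
    ext ω
    simp only [Set.mem_ofPred_eq, coe_opL hL]
  rw [h2]
  refine h1.congr_deriv (Finset.sum_congr rfl fun e _ => ?_)
  set X : Set (Om d) := {ω | ω ∈ AT D h (insert e (opL (L.erase e) p ω))} with hX
  set Y : Set (Om d) := {ω | ω ∈ AT D h (opL (L.erase e) p ω)} with hY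
  have hX' : X = {ω | (ClS (insert e (opn p ω ∩ L)) D ∩ ghost false h ω).Nonempty} := by
    ext ω
    have : (↑(insert e (opL (L.erase e) p ω)) : Set (Sym2 (V d))) = insert e (opn p ω ∩ L) := by
      rw [Finset.coe_insert, erase_eq hL]
      ext f
      simp only [Set.mem_insert_iff, mem_del1]
      tauto
    simp only [hX, AT, Set.mem_ofPred_eq, this]
  have hY' : Y = {ω | (ClS (del1 (opn p ω ∩ L) e) D ∩ ghost false h ω).Nonempty} := by
    ext ω
    simp only [hY, AT, Set.mem_ofPred_eq, erase_eq hL]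
  have mY : MeasurableSet Y := by
    rw [hY']; exact measurableSet_nonempty ((opnL_MES p _).del1 e) D h
  have hsub : Y ⊆ X := by
    rw [hX', hY']
    rintro ω ⟨t, ht1, ht2⟩
    exact ⟨t, ClS_mono (fun f hf => Or.inr (del1_subset _ _ hf)) D ht1, ht2⟩
  have hPiv : PivEv (L : Set (Sym2 (V d))) D p h e = X \ Y := by
    rw [hX', hY']; rfl
  rw [hPiv, measure_sdiff hsub mY.nullMeasurableSet (measure_ne_top _ _),
    ENNReal.toReal_sub_of_le (measure_mono hsub) (measure_ne_top _ _)]

end Pool.Agent.PB.AB
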