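import Pool.Agent.PB.AB.Two

/-!
# PROJECT PB, module AB-Sep: the term with a pivotal edge (Section 12.3)

`L` finite set of lattice edges, `D` finite. `O = opn p ω ∩ L`, `e = s(u,v)`.

For a directed pair `(u,v)` with `e = s(u,v) ∈ L` and a finite set `K` with `u ∈ K`, `v ∉ K`:
 `eA = {ω | ClS (del1 O e) D = K ∧ Disjoint K (ghost false h ω)}`,
 `eB = {ω | ∃ t, t' green, t ≠ t', DisjConn (off O K) ![(v,t),(v,t')]}`, `B' = EvG (off L K) {v} p h`.
 `Ev3 ⊆ ⋃_{(u,v),K} ({e ∈ opn p ω} ∩ eA ∩ eB)`; independence (`expl_edge`, `expl`);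
 `Pr eB ≤ Pr B' * Mg d p h`; for fixed `e` the events `eA ∩ B'` are disjoint and contained in
 `PivEv L D p h e`.
-/

set_option autoImplicit false
open MeasureTheory Filter Topology
open scoped ENNReal BigOperators

namespace Pool.Agent.PB.AB

variable {d : ℕ}

theorem ClS_eq_congr_aux {W : Type*} {O O' : Set (Sym2 W)} {D K : Set W}
    (h : ∀ e ∈ touch K, (e ∈ O ↔ e ∈ O')) (hK : ClS O D = K) : ClS O' D = K := by
  have hD : D ⊆ K := by rw [← hK]; exact subset_ClS O D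
  have hc : ∀ a ∈ K, ∀ b, s(a, b) ∈ O → b ∈ K := by
    intro a ha b hab
    rw [← hK] at ha ⊢
    exact ClS_tail ha hab
  have hc' : ∀ a ∈ K, ∀ b, s(a, b) ∈ O' → b ∈ K := by
    intro a ha b hab
    exact hc a ha b ((h _ (mem_touch_left ha)).2 hab)
  apply Set.Subset.antisymm
  · rintro x ⟨a, ha, hr⟩
    exact Rch.mem_of_closed K (hD ha) hc' hr
  · intro x hx
    rw [← hK] at hx
    obtain ⟨a, ha, hr⟩ := hx
    refine ⟨a, ha, (Rch_touch hc (hD ha) hr).2.mono ?_⟩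
    intro e he
    exact (h e he.2).1 he.1

theorem ClS_eq_congr {W : Type*} {O O' : Set (Sym2 W)} {D K : Set W}
    (h : ∀ e ∈ touch K, (e ∈ O ↔ e ∈ O')) : ClS O D = K ↔ ClS O' D = K :=
  ⟨ClS_eq_congr_aux h, ClS_eq_congr_aux fun e he => (h e he).symm⟩

/-- the explored part -/
def eA (L : Set (Sym2 (V d))) (D : Set (V d)) (p h : ℝ) (u v : V d) (K : Set (V d)) :
    Set (Om d) :=
  {ω | ClS (del1 (opn p ω ∩ L) s(u, v)) D = K ∧ Disjoint K (ghost false h ω)}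

/-- the part off `K` -/
def eB (L : Set (Sym2 (V d))) (p h : ℝ) (v : V d) (K : Set (V d)) : Set (Om d) :=
  {ω | ∃ t ∈ ghost false h ω, ∃ t' ∈ ghost false h ω, t ≠ t' ∧
      DisjConn (off (opn p ω ∩ L) K) ![(v, t), (v, t')]}

theorem off_inter_eq {W : Type*} (O L : Set (Sym2 W)) (K : Set W) :
    off (O ∩ L) K = O ∩ off L K := by
  ext e
  rw [Set.mem_inter_iff, mem_off, mem_off, Set.mem_inter_iff, and_assoc]

theorem rch_off_notMem {W : Type*} {O : Set (Sym2 W)} {K : Set W} {v x : W} (hv : v ∉ K)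
    (h : Rch (off O K) v x) : x ∉ K := by
  refine Rch.mem_of_closed (O := off O K) Kᶜ hv ?_ h
  intro a _ b hab
  exact (mk_mem_off.1 hab).2.2

theorem opn_congr {p : ℝ} {ω ω' : Om d} {e : Sym2 (V d)} (h : ω (Sum.inl e) = ω' (Sum.inl e)) :
    e ∈ opn p ω ↔ e ∈ opn p ω' := by
  simp only [opn, Set.mem_ofPred_eq, h]

theorem ghost_congr {b : Bool} {h : ℝ} {ω ω' : Om d} {v : V d}
    (hh : ω (Sum.inr (v, b)) = ω' (Sum.inr (v, b))) : v ∈ ghost b h ω ↔ v ∈ ghost b h ω' := by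
  simp only [ghost, Set.mem_ofPred_eq, hh]

theorem dependsOn_of_imp {ι α : Type*} {S : Set ι} {A : Set (ι → α)}
    (h : ∀ ω ω' : ι → α, (∀ i ∈ S, ω i = ω' i) → ω ∈ A → ω' ∈ A) :
    DependsOn (fun ω => ω ∈ A) S := fun ω ω' hω => by
  simp only [eq_iff_iff]
  exact ⟨h ω ω' hω, h ω' ω fun i hi => (hω i hi).symm⟩

theorem dep_eA (L : Set (Sym2 (V d))) (D : Set (V d)) (p h : ℝ) (u v : V d) (K : Set (V d)) :
    DependsOn (fun ω : Om d => ω ∈ eA L D p h u v K) (tI K \ {Sum.inl s(u, v)}) := by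
  refine dependsOn_of_imp ?_
  rintro ω ω' hω ⟨h1, h2⟩
  refine ⟨(ClS_eq_congr ?_).1 h1, ?_⟩
  · intro f hf
    rw [mem_del1, mem_del1]
    by_cases hfe : f = s(u, v)
    · simp [hfe]
    · have h3 : ω (Sum.inl f) = ω' (Sum.inl f) := by
        refine hω _ ⟨inl_mem_tI.2 hf, ?_⟩
        intro h4
        exact hfe (Sum.inl_injective h4)
      rw [Set.mem_inter_iff, Set.mem_inter_iff, opn_congr h3]
  · rw [Set.disjoint_left] at h2 ⊢
    intro x hx hx'
    refine h2 hx ((ghost_congr (hω _ ⟨inr_mem_tI.2 hx, ?_⟩)).2 hx')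
    intro h4
    cases h4

theorem off_opn_congr {L : Set (Sym2 (V d))} {p : ℝ} {K : Set (V d)} {ω ω' : Om d}
    (hω : ∀ i ∈ (tI K)ᶜ, ω i = ω' i) : off (opn p ω ∩ L) K ⊆ off (opn p ω' ∩ L) K := by
  intro e he
  rw [mem_off] at he ⊢
  refine ⟨⟨(opn_congr (hω _ ?_)).1 he.1.1, he.1.2⟩, he.2⟩
  intro h
  obtain ⟨x, hx, hxK⟩ := inl_mem_tI.1 h
  exact he.2 x hx hxK

theorem dep_eB (L : Set (Sym2 (V d))) (p h : ℝ) {v : V d} {K : Set (V d)} (hv : v ∉ K) :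
    DependsOn (fun ω : Om d => ω ∈ eB L p h v K) (tI K)ᶜ := by
  refine dependsOn_of_imp ?_
  rintro ω ω' hω ⟨t, ht, t', ht', hne, hc⟩
  obtain ⟨S1, S2, h1, h2, _, h4, h5⟩ := disjConn_two.1 hc
  have hg : ∀ x : V d, x ∉ K → x ∈ ghost false h ω → x ∈ ghost false h ω' := by
    intro x hx hx'
    exact (ghost_congr (hω _ fun h => hx (inr_mem_tI.1 h))).1 hx'
  exact ⟨t, hg t (rch_off_notMem hv (h4.mono h1)) ht, t',
    hg t' (rch_off_notMem hv (h5.mono h2)) ht', hne, hc.mono (off_opn_congr hω)⟩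

theorem mem_EvG_single {L : Set (Sym2 (V d))} {p h : ℝ} {v : V d} {ω : Om d} :
    ω ∈ EvG L {v} p h ↔ ∃ t ∈ ghost false h ω, Rch (opn p ω ∩ L) v t := by
  constructor
  · rintro ⟨t, ⟨a, ha, hr⟩, ht⟩
    rw [Set.mem_singleton_iff] at ha
    subst ha
    exact ⟨t, ht, hr⟩
  · rintro ⟨t, ht, hr⟩
    exact ⟨t, ⟨v, rfl, hr⟩, ht⟩

theorem dep_EvG_off (L : Set (Sym2 (V d))) (p h : ℝ) {v : V d} {K : Set (V d)} (hv : v ∉ K) :
    DependsOn (fun ω : Om d => ω ∈ EvG (off L K) {v} p h) (tI K)ᶜ := by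
  refine dependsOn_of_imp ?_
  intro ω ω' hω hm
  rw [mem_EvG_single] at hm ⊢
  obtain ⟨t, ht, hr⟩ := hm
  rw [← off_inter_eq] at hr
  have hK : t ∉ K := rch_off_notMem hv hr
  refine ⟨t, (ghost_congr (hω _ fun h => hK (inr_mem_tI.1 h))).1 ht, ?_⟩
  rw [← off_inter_eq]
  exact hr.mono (off_opn_congr hω)

theorem measurableSet_eA (L : Set (Sym2 (V d))) (D : Set (V d)) (p h : ℝ) (u v : V d)
    (K : Set (V d)) : MeasurableSet (eA L D p h u v K) :=
  (MVS.eq_set (MES.clS ((opnL_MES p L).del1 _) D) K).inter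
    (measurable_disj (MVS.const K) false h)

theorem measurableSet_eB (L : Set (Sym2 (V d))) (p h : ℝ) (v : V d) (K : Set (V d)) :
    MeasurableSet (eB L p h v K) := by
  have hO : MES (fun ω : Om d => off (opn p ω ∩ L) K) := (opnL_MES p L).rem _
  have h1 : eB L p h v K = ⋃ t : V d, ⋃ t' : V d, ⋃ _ : t ≠ t',
      ({ω | t ∈ ghost false h ω} ∩ {ω | t' ∈ ghost false h ω} ∩
        {ω | DisjConn (off (opn p ω ∩ L) K) ![(v, t), (v, t')]}) := by
    ext ω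
    simp only [eB, Set.mem_ofPred_eq, Set.mem_iUnion, Set.mem_inter_iff, exists_prop]
    constructor
    · rintro ⟨t, ht, t', ht', hne, hc⟩
      exact ⟨t, t', hne, ⟨ht, ht'⟩, hc⟩
    · rintro ⟨t, t', hne, ⟨ht, ht'⟩, hc⟩
      exact ⟨t, ht, t', ht', hne, hc⟩
  rw [h1]
  refine MeasurableSet.iUnion fun t => MeasurableSet.iUnion fun t' => MeasurableSet.iUnion fun _ =>
    ((ghost_MVS false h t).inter (ghost_MVS false h t')).inter (hO.disjConn _)

theorem eB_le (L : Set (Sym2 (V d))) (p h : ℝ) (v : V d) (K : Set (V d)) :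
    Pr d (eB L p h v K) ≤ Pr d (EvG (off L K) {v} p h) * Mg d p h := by
  have h1 : eB L p h v K ⊆ Ev2 (off L K) {v} {v} p h := by
    rintro ω ⟨t, ht, t', ht', hne, hc⟩
    rw [off_inter_eq] at hc
    exact ⟨v, rfl, v, rfl, t, ht, t', ht', hne, hc⟩
  calc Pr d (eB L p h v K) ≤ Pr d (Ev2 (off L K) {v} {v} p h) := measure_mono h1
    _ ≤ Pr d (EvG (off L K) {v} p h) * Pr d (EvG (off L K) {v} p h) := Ev2_le _ _ _ _ _
    _ ≤ _ := by gcongr; exact EvG_single_le _ _ _ _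

theorem ClS_finite {W : Type*} {O : Set (Sym2 W)} (hO : O.Finite) {D : Set W} (hD : D.Finite) :
    (ClS O D).Finite := by
  have h1 : ClS O D ⊆ D ∪ ⋃ e ∈ O, {x | x ∈ e} := by
    rintro x ⟨a, ha, hr⟩
    refine Rch.induct (P := fun z => z ∈ D ∪ ⋃ e ∈ O, {x | x ∈ e}) (Or.inl ha) ?_ hr
    intro y z _ hyz _
    refine Or.inr (Set.mem_iUnion₂.2 ⟨s(y, z), hyz, ?_⟩)
    exact Sym2.mem_mk_right y z
  refine (hD.union (hO.biUnion fun e _ => ?_)).subset h1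
  induction e using Sym2.ind with
  | _ a b =>
    refine (Set.toFinite {a, b}).subset ?_
    intro x hx
    simpa using hx

/-- the disjoint events whose sum is bounded by `PivEv` -/
def eE (L : Set (Sym2 (V d))) (D : Set (V d)) (p h : ℝ) (e : Sym2 (V d))
    (i : V d × V d × Finset (V d)) : Set (Om d) :=
  {ω | (s(i.1, i.2.1) = e ∧ i.1 ∈ i.2.2 ∧ i.2.1 ∉ i.2.2) ∧
    (ω ∈ eA L D p h i.1 i.2.1 (i.2.2 : Set (V d)) ∧
      ω ∈ EvG (off L (i.2.2 : Set (V d))) {i.2.1} p h)}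

theorem measurableSet_eE (L : Set (Sym2 (V d))) (D : Set (V d)) (p h : ℝ) (e : Sym2 (V d))
    (i : V d × V d × Finset (V d)) : MeasurableSet (eE L D p h e i) :=
  (MeasurableSet.const _).inter ((measurableSet_eA L D p h _ _ _).inter
    (measurableSet_EvG _ _ p h))

theorem eE_disjoint (L : Set (Sym2 (V d))) (D : Set (V d)) (p h : ℝ) (e : Sym2 (V d)) :
    Pairwise (Function.onFun Disjoint (eE L D p h e)) := by
  rintro ⟨u, v, K⟩ ⟨u', v', K'⟩ hne
  rw [Function.onFun, Set.disjoint_left]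
  rintro ω ⟨⟨h1, h2, h3⟩, ⟨h4, _⟩, _⟩ ⟨⟨h1', h2', h3'⟩, ⟨h4', _⟩, _⟩
  dsimp only at h1 h2 h3 h4 h1' h2' h3' h4'
  apply hne
  rw [h1] at h4
  rw [h1'] at h4'
  have hK : K = K' := Finset.coe_injective (h4.symm.trans h4')
  subst hK
  rcases Sym2.eq_iff.1 (h1.trans h1'.symm) with ⟨rfl, rfl⟩ | ⟨rfl, rfl⟩
  · rfl
  · exact absurd h2 h3'

theorem eE_subset {L : Set (Sym2 (V d))} {D : Set (V d)} {p h : ℝ} {e : Sym2 (V d)}
    (i : V d × V d × Finset (V d)) : eE L D p h e i ⊆ PivEv L D p h e := by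
  obtain ⟨u, v, K⟩ := i
  rintro ω ⟨⟨h1, h2, h3⟩, ⟨h4, h5⟩, h6⟩
  dsimp only at h1 h2 h3 h4 h5 h6
  subst h1
  rw [mem_EvG_single] at h6
  obtain ⟨t, ht, hr⟩ := h6
  have hu : u ∈ ClS (del1 (opn p ω ∩ L) s(u, v)) D := by rw [h4]; exact h2
  obtain ⟨a, ha, hau⟩ := hu
  refine ⟨⟨t, ⟨a, ha, ?_⟩, ht⟩, ?_⟩
  · have h7 : Rch (insert s(u, v) (opn p ω ∩ L)) a u :=
      hau.mono ((del1_subset _ _).trans (Set.subset_insert _ _))
    have h8 : Rch (insert s(u, v) (opn p ω ∩ L)) v t := by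
      refine hr.mono ?_
      intro f hf
      exact Or.inr ⟨hf.1, off_subset _ _ hf.2⟩
    exact (h7.tail (Set.mem_insert _ _)).trans h8
  · rintro ⟨x, hx, hx'⟩
    rw [h4] at hx
    exact Set.disjoint_left.1 h5 hx hx'

theorem tsum_eE_le (L : Set (Sym2 (V d))) (D : Set (V d)) (p h : ℝ) (e : Sym2 (V d)) :
    ∑' i, Pr d (eE L D p h e i) ≤ Pr d (PivEv L D p h e) := by
  rw [← measure_iUnion (eE_disjoint L D p h e) (measurableSet_eE L D p h e)]
  exact measure_mono (Set.iUnion_subset fun i => eE_subset i)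

theorem Ev3_term (L : Finset (Sym2 (V d))) (hL : ∀ e ∈ L, e ∈ (lat d).edgeSet) (D : Finset (V d))
    {p : ℝ} (h : ℝ) (u v : V d) (K : Finset (V d)) :
    Pr d {ω | (s(u, v) ∈ L ∧ u ∈ K ∧ v ∉ K) ∧ (s(u, v) ∈ opn p ω ∧
      ω ∈ eA (L : Set (Sym2 (V d))) (D : Set (V d)) p h u v (K : Set (V d)) ∧
      ω ∈ eB (L : Set (Sym2 (V d))) p h v (K : Set (V d)))} ≤
    ENNReal.ofReal p * Mg d p h *
      ∑ e ∈ L, Pr d (eE (L : Set (Sym2 (V d))) (D : Set (V d)) p h e (u, v, K)) := by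
  by_cases hc : s(u, v) ∈ L ∧ u ∈ K ∧ v ∉ K
  · obtain ⟨h1, h2, h3⟩ := hc
    have hv : v ∉ (K : Set (V d)) := h3
    have e1 : {ω : Om d | (s(u, v) ∈ L ∧ u ∈ K ∧ v ∉ K) ∧ (s(u, v) ∈ opn p ω ∧
        ω ∈ eA (L : Set (Sym2 (V d))) (D : Set (V d)) p h u v (K : Set (V d)) ∧
        ω ∈ eB (L : Set (Sym2 (V d))) p h v (K : Set (V d)))} =
        {ω | s(u, v) ∈ opn p ω ∧
          ω ∈ eA (L : Set (Sym2 (V d))) (D : Set (V d)) p h u v (K : Set (V d)) ∧
          ω ∈ eB (L : Set (Sym2 (V d))) p h v (K : Set (V d))} := by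
      ext ω
      simp [h1, h2, h3]
    rw [e1, expl_edge p (hL _ h1) (mem_touch_left (K := (K : Set (V d))) (a := u) h2)
      (measurableSet_eA _ _ p h u v _) (measurableSet_eB _ p h v _) (dep_eA _ _ p h u v _)
      (dep_eB _ p h hv)]
    have e2 : Pr d (eE (L : Set (Sym2 (V d))) (D : Set (V d)) p h s(u, v) (u, v, K)) =
        Pr d (eA (L : Set (Sym2 (V d))) (D : Set (V d)) p h u v (K : Set (V d))) *
          Pr d (EvG (off (L : Set (Sym2 (V d))) (K : Set (V d))) {v} p h) := by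
      rw [← expl (measurableSet_eA _ _ p h u v _) (measurableSet_EvG _ _ p h)
        ((dep_eA _ _ p h u v _).mono Set.sdiff_subset) (dep_EvG_off _ p h hv)]
      congr 1
      ext ω
      simp only [eE, Set.mem_ofPred_eq, Set.mem_inter_iff]
      exact ⟨fun hx => hx.2, fun hx => ⟨⟨trivial, h2, h3⟩, hx⟩⟩
    calc ENNReal.ofReal (min p 1) *
          (Pr d (eA (L : Set (Sym2 (V d))) (D : Set (V d)) p h u v (K : Set (V d))) *
            Pr d (eB (L : Set (Sym2 (V d))) p h v (K : Set (V d)))) ≤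
        ENNReal.ofReal p *
          (Pr d (eA (L : Set (Sym2 (V d))) (D : Set (V d)) p h u v (K : Set (V d))) *
            (Pr d (EvG (off (L : Set (Sym2 (V d))) (K : Set (V d))) {v} p h) * Mg d p h)) := by
          gcongr
          · exact min_le_left _ _
          · exact eB_le _ _ _ _ _
      _ = ENNReal.ofReal p * Mg d p h *
          Pr d (eE (L : Set (Sym2 (V d))) (D : Set (V d)) p h s(u, v) (u, v, K)) := by
          rw [e2]; ring
      _ ≤ _ := by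
          gcongr
          exact Finset.single_le_sum (f := fun e => Pr d (eE (L : Set (Sym2 (V d)))
            (D : Set (V d)) p h e (u, v, K))) (fun _ _ => zero_le) h1
  · have e1 : {ω : Om d | (s(u, v) ∈ L ∧ u ∈ K ∧ v ∉ K) ∧ (s(u, v) ∈ opn p ω ∧
        ω ∈ eA (L : Set (Sym2 (V d))) (D : Set (V d)) p h u v (K : Set (V d)) ∧
        ω ∈ eB (L : Set (Sym2 (V d))) p h v (K : Set (V d)))} = ∅ := by
      ext ω
      simp only [Set.mem_ofPred_eq, Set.mem_empty_iff_false, iff_false]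
      exact fun hx => hc hx.1
    rw [e1, measure_empty]
    exact zero_le

theorem Ev3_le (L : Finset (Sym2 (V d))) (hL : ∀ e ∈ L, e ∈ (lat d).edgeSet) (D : Finset (V d))
    {p : ℝ} (hp0 : 0 ≤ p) (hp1 : p ≤ 1) (h : ℝ) :
    Pr d (Ev3 (L : Set (Sym2 (V d))) (D : Set (V d)) p h) ≤
      ENNReal.ofReal p * Mg d p h *
        ∑ e ∈ L, Pr d (PivEv (L : Set (Sym2 (V d))) (D : Set (V d)) p h e) := by
  have hsub : Ev3 (L : Set (Sym2 (V d))) (D : Set (V d)) p h ⊆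
      ⋃ i : V d × V d × Finset (V d), {ω | (s(i.1, i.2.1) ∈ L ∧ i.1 ∈ i.2.2 ∧ i.2.1 ∉ i.2.2) ∧
        (s(i.1, i.2.1) ∈ opn p ω ∧
        ω ∈ eA (L : Set (Sym2 (V d))) (D : Set (V d)) p h i.1 i.2.1 (i.2.2 : Set (V d)) ∧
        ω ∈ eB (L : Set (Sym2 (V d))) p h i.2.1 (i.2.2 : Set (V d)))} := by
    rintro ω ⟨u, v, ⟨h1, h2, h3, h4, _⟩, h6⟩
    have hf : (ClS (del1 (opn p ω ∩ (L : Set (Sym2 (V d)))) s(u, v)) (D : Set (V d))).Finite := by
      refine ClS_finite ?_ D.finite_toSet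
      exact L.finite_toSet.subset ((del1_subset _ _).trans Set.inter_subset_right)
    refine Set.mem_iUnion.2 ⟨(u, v, hf.toFinset), ⟨?_, ?_, ?_⟩, h1.1, ⟨?_, ?_⟩, ?_⟩
    · exact h1.2
    · simpa using h2
    · simpa using h3
    · rw [Set.Finite.coe_toFinset]
    · rw [Set.Finite.coe_toFinset]; exact h4
    · dsimp only
      rw [Set.Finite.coe_toFinset]
      exact h6
  calc Pr d (Ev3 (L : Set (Sym2 (V d))) (D : Set (V d)) p h)
      ≤ ∑' i : V d × V d × Finset (V d), Pr d {ω | (s(i.1, i.2.1) ∈ L ∧ i.1 ∈ i.2.2 ∧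
          i.2.1 ∉ i.2.2) ∧ (s(i.1, i.2.1) ∈ opn p ω ∧
        ω ∈ eA (L : Set (Sym2 (V d))) (D : Set (V d)) p h i.1 i.2.1 (i.2.2 : Set (V d)) ∧
        ω ∈ eB (L : Set (Sym2 (V d))) p h i.2.1 (i.2.2 : Set (V d)))} :=
        (measure_mono hsub).trans (measure_iUnion_le _)
    _ ≤ ∑' i : V d × V d × Finset (V d), ENNReal.ofReal p * Mg d p h *
          ∑ e ∈ L, Pr d (eE (L : Set (Sym2 (V d))) (D : Set (V d)) p h e i) :=
        ENNReal.tsum_le_tsum fun i => Ev3_term L hL D h i.1 i.2.1 i.2.2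
    _ = ENNReal.ofReal p * Mg d p h *
          ∑ e ∈ L, ∑' i : V d × V d × Finset (V d),
            Pr d (eE (L : Set (Sym2 (V d))) (D : Set (V d)) p h e i) := by
        rw [ENNReal.tsum_mul_left, Summable.tsum_finsetSum (fun _ _ => ENNReal.summable)]
    _ ≤ _ := by
        gcongr with e he
        exact tsum_eE_le _ _ _ _ _

end Pool.Agent.PB.AB
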