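import Pool.Agent.PB.AB.One
import Pool.Agent.PB.AB.Sep
import Pool.Agent.PB.AB.Rus
import Pool.Agent.PB.AB.Lim
import Pool.Agent.PB.AB.Num
import Pool.Agent.PB.L.Defs

/-!
# PROJECT PB, Section 12.3: the Aizenman-Barsky inequality and its consequence (helper39)
-/

set_option autoImplicit false
open MeasureTheory Filter Topology
open scoped ENNReal BigOperators

namespace Pool.Agent.PB.AB

variable {d : ℕ}

/-- the Aizenman-Barsky inequality in a finite region -/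
theorem ab_ineq (L : Finset (Sym2 (V d))) (hL : ∀ e ∈ L, e ∈ (lat d).edgeSet) (D : Finset (V d))
    {p h M : ℝ} (hp0 : 0 < p) (hp1 : p < 1) (hh0 : 0 < h) (hh1 : h ≤ 1) (hM : Mr d p h ≤ M) :
    ∃ f' : ℝ, HasDerivAt (fun q : ℝ => fF (L : Set (Sym2 (V d))) (D : Set (V d)) q h) f' p ∧
      fF (L : Set (Sym2 (V d))) (D : Set (V d)) p h ≤
        4 * (fF (L : Set (Sym2 (V d))) (D : Set (V d)) p h -
          fF (L : Set (Sym2 (V d))) (D : Set (V d)) p (h / 2)) +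
        fF (L : Set (Sym2 (V d))) (D : Set (V d)) p h ^ 2 + p * M * f' := by
  refine ⟨_, fF_deriv L hL (D : Set (V d)) h hp0 hp1, ?_⟩
  set S := ∑ e ∈ L, (Pr d (PivEv (L : Set (Sym2 (V d))) (D : Set (V d)) p h e)).toReal with hS
  have hS0 : 0 ≤ S := Finset.sum_nonneg fun _ _ => ENNReal.toReal_nonneg
  have h1 : Pr d (EvG (L : Set (Sym2 (V d))) (D : Set (V d)) p h) ≤
      Pr d (Ev1 (L : Set (Sym2 (V d))) (D : Set (V d)) p h) +
      Pr d (Ev2 (L : Set (Sym2 (V d))) (D : Set (V d)) (D : Set (V d)) p h) +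
      Pr d (Ev3 (L : Set (Sym2 (V d))) (D : Set (V d)) p h) := by
    refine (measure_mono (EvG_subset _ _ p h)).trans ?_
    refine (measure_union_le _ _).trans ?_
    gcongr
    exact measure_union_le _ _
  have h2 := ENNReal.toReal_mono (by
    refine ENNReal.add_ne_top.2 ⟨ENNReal.add_ne_top.2 ⟨measure_ne_top _ _, measure_ne_top _ _⟩,
      measure_ne_top _ _⟩) h1
  rw [ENNReal.toReal_add (ENNReal.add_ne_top.2 ⟨measure_ne_top _ _, measure_ne_top _ _⟩)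
    (measure_ne_top _ _), ENNReal.toReal_add (measure_ne_top _ _) (measure_ne_top _ _)] at h2
  have h3 := one_green L D p hh0 hh1
  have h4 := ENNReal.toReal_mono (ENNReal.mul_ne_top (measure_ne_top _ _) (measure_ne_top _ _))
    (Ev2_le (L : Set (Sym2 (V d))) (D : Set (V d)) (D : Set (V d)) p h)
  rw [ENNReal.toReal_mul, ← sq] at h4
  have hMg : Mg d p h ≠ ⊤ := measure_ne_top _ _
  have hsum : ∑ e ∈ L, Pr d (PivEv (L : Set (Sym2 (V d))) (D : Set (V d)) p h e) ≠ ⊤ :=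
    ENNReal.sum_ne_top.2 fun _ _ => measure_ne_top _ _
  have h5 := ENNReal.toReal_mono (ENNReal.mul_ne_top (ENNReal.mul_ne_top ENNReal.ofReal_ne_top hMg)
    hsum) (Ev3_le L hL D hp0.le hp1.le h)
  rw [ENNReal.toReal_mul, ENNReal.toReal_mul, ENNReal.toReal_ofReal hp0.le,
    ENNReal.toReal_sum (fun _ _ => measure_ne_top _ _)] at h5
  have h6 : p * (Mg d p h).toReal * S ≤ p * M * S := by
    have : (Mg d p h).toReal ≤ M := hM
    gcongr
  have h7 : fF (L : Set (Sym2 (V d))) (D : Set (V d)) p h =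
    (Pr d (EvG (L : Set (Sym2 (V d))) (D : Set (V d)) p h)).toReal := rfl
  rw [← h7] at h2 h4
  linarith

theorem infT_eq (p : ℝ) (U : Finset (V d)) (T : Finset (V d × V d)) (hT : ∀ q ∈ T, q.2 ∉ U)
    [DecidableEq (V d)] :
    (Pr d (infT p U T)).toReal = gI0 (U : Set (V d)) ((T.image Prod.snd : Finset (V d)) : Set (V d)) p := by
  unfold gI0 infT
  congr 2
  ext ω
  simp only [Set.mem_ofPred_eq, Finset.coe_image, Set.mem_image, Finset.mem_coe]
  have hCl : ∀ y : V d, y ∉ U → ClA (Del.ofSet (U : Set (V d))) (opn p ω) y =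
      Cl (off (opn p ω) (U : Set (V d))) y := by
    intro y hy
    ext x
    rw [mem_ClA, mem_Cl]
    exact ⟨fun h => h.2, fun h => ⟨by simpa [Del.ofSet] using hy, h⟩⟩
  constructor
  · rintro ⟨q, hq, hinf⟩
    exact ⟨q.2, ⟨q, hq, rfl⟩, by rwa [← hCl _ (hT q hq)]⟩
  · rintro ⟨a, ⟨q, hq, rfl⟩, hinf⟩
    exact ⟨q, hq, by rwa [hCl _ (hT q hq)]⟩

/-- 12.3 -/
theorem in12_3 {b : ℝ} (hC : Crit d) (h9 : Out9 d b) :
    ∃ c4 : ℝ, 0 < c4 ∧ ∀ (U : Finset (V d)) (T : Finset (V d × V d)) (p1 p2 c3 : ℝ),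
    pc d < p1 → p1 ≤ p2 → p2 < 1 → 0 < c3 → c3 ≤ 1 → (∀ q ∈ T, q.2 ∉ U) →
    c3 ≤ (Pr d (infT p1 U T)).toReal →
    1 - (Pr d (infT p2 U T)).toReal ≤ (1 / c3) * ((p1 - pc d) / (p2 - pc d)) ^ c4 := by
  classical
  obtain ⟨C, hC1, hM⟩ := h9.M_le
  refine ⟨1 / C, by positivity, ?_⟩
  intro U T p1 p2 c3 h1 h12 h2 hc0 hc1 hT hc
  rcases h12.eq_or_lt with rfl | h12
  · have h3 : (p1 - pc d) / (p1 - pc d) = 1 := div_self (by linarith)
    rw [h3, Real.one_rpow, mul_one]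
    have h4 : 1 ≤ 1 / c3 := by rw [le_div_iff₀ hc0]; linarith
    have h5 : 0 ≤ (Pr d (infT p1 U T)).toReal := ENNReal.toReal_nonneg
    linarith
  rw [infT_eq p1 U T hT] at hc
  rw [infT_eq p2 U T hT]
  set D := T.image Prod.snd with hD
  refine ab_num (pc := pc d) (p1 := p1) (p2 := p2) (C := C) (c3 := c3) hC.pc_pos.le h1 h12 h2 hC1
    hc0 (F := fun n k q => fF (LU n (U : Set (V d)) : Set (Sym2 (V d))) (D : Set (V d)) q
      ((1 / 2 : ℝ) ^ k))
    (G := fun k q => gF (U : Set (V d)) (D : Set (V d)) q ((1 / 2 : ℝ) ^ k))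
    (g := fun q => gI0 (U : Set (V d)) (D : Set (V d)) q)
    (fun _ _ _ => fF_nonneg _ _ _ _) (fun _ _ _ => fF_le_one _ _ _ _)
    (fun _ _ _ _ hq => fF_mono subset_rfl subset_rfl hq le_rfl)
    (fun n k q => fF_mono subset_rfl subset_rfl le_rfl (by
      rw [pow_succ]
      have : (0 : ℝ) < (1 / 2) ^ k := by positivity
      linarith))
    ?_ (fun k => fF_tendsto _ _ _ _) (fun k => fF_tendsto _ _ _ _) (gF_tendsto _ _ _)
    (gF_tendsto _ _ _) (fun k => gI0_le _ _ _ (by positivity)) hc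
  intro n k q hq1 hq2
  have hk1 : (1 / 2 : ℝ) ^ k ≤ 1 := pow_le_one₀ (by norm_num) (by norm_num)
  have hk0 : (0 : ℝ) < (1 / 2) ^ k := by positivity
  obtain ⟨f', hf1, hf2⟩ := ab_ineq (LU n (U : Set (V d))) (LU_edge n _) D (p := q)
    (h := (1 / 2 : ℝ) ^ k) (M := C * (Real.sqrt ((1 / 2 : ℝ) ^ k) + (q - pc d)))
    (by linarith [hC.pc_pos]) (by linarith) hk0 hk1
    (hM q _ (by linarith) (by linarith) hk0 hk1)
  refine ⟨f', hf1, ?_⟩
  have h3 : (1 / 2 : ℝ) ^ (k + 1) = (1 / 2) ^ k / 2 := by rw [pow_succ]; ring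
  rw [h3]
  exact hf2

end Pool.Agent.PB.AB
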