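import Pool.Agent.PB.AB.Defs

/-!
# PROJECT PB, module AB-One: exactly one green vertex (Section 12.3)

`L`, `D` finite, `C ω = ClS (opn p ω ∩ L) D` (a finite set: contained in `D` and the endpoints of
edges of `L`), independent of the ghosts.

PLAN. For a finite set `K` put `q K = Pr {ω | C ω = K}`.
(1) `Pr (EvG L D p h) = Σ_K q K (1 - e^{-h|K|})`: `Pr_split_fin` / `lintegral_ghost_hit` of P/Expl
    (`ex h K = e^{-h|K|}`), i.e. `Pr (EvG L D p h) = ∫⁻ (1 - ex h (C ω))`; here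
    `EvG = {ω | ∃ t ∈ ghost false h ω, t ∈ C ω}`.
(2) `Pr {ω | ∃ t, K ∩ ghost false h ω = {t}} = |K| (1 - e^{-h}) e^{-h(|K|-1)}` for a finite set `K`
    (disjoint union over `t ∈ K` of {t green} ∩ {no other vertex of K green}; independence
    `Pr_inter_dep` and `Pr_ghost_fin` for `K.erase t`; `Pr_label_le` for the label of `t`), which is
    `= |K| (e^h - 1) e^{-h|K|}`.
(3) `Pr (Ev1 L D p h) = Σ_K q K |K| (e^h - 1) e^{-h|K|}` (`lintegral_ghost_rel` with
    `R S T = ∃ t, S ∩ T = {t}`, or: events `{C ω = K}` and `{∃ t, K ∩ ghost = {t}}` are independent,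
    sum over `K`, `Pr_split_fin`).
(4) for `x ≥ 0`, `0 < h ≤ 1`: `x (e^h - 1) e^{-hx} ≤ 4 (e^{-(h/2)x} - e^{-hx})`, because
    `e^{-(h/2)x} - e^{-hx} = e^{-hx} (e^{hx/2} - 1) ≥ e^{-hx} h x / 2` and `e^h - 1 ≤ 2 h` for
    `0 ≤ h ≤ 1` (`Real.exp_bound` or convexity; e.g. from `Real.add_one_le_exp (-h)`:
    `e^{-h} ≥ 1 - h` gives it for `h ≤ 1/2`; in general use `Real.exp_bound'`/`Real.abs_exp_sub_one_le`:
    `|e^h - 1| ≤ 2|h|` for `|h| ≤ 1`).
(5) so `P(Ev1) ≤ Σ_K q K * 4 (e^{-(h/2)|K|} - e^{-h|K|}) = 4 (fF L D p h - fF L D p (h/2))`.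
It may be convenient to do everything with real-valued integrals or finite sums over
`K ∈ (D ∪ endpoints of L).powerset`.
-/

set_option autoImplicit false
open MeasureTheory Filter Topology
open scoped ENNReal BigOperators

namespace Pool.Agent.PB.AB

variable {d : ℕ}

theorem mvs_inter {C D : Om d → Set (V d)} (hC : MVS C) (hD : MVS D) :
    MVS (fun ω => C ω ∩ D ω) := fun x => (hC x).inter (hD x)

theorem meas_one {C : Om d → Set (V d)} (hC : MVS C) (h : ℝ) :
    MeasurableSet {ω : Om d | ∃ t, C ω ∩ ghost false h ω = {t}} := by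
  have : {ω : Om d | ∃ t, C ω ∩ ghost false h ω = {t}} =
      ⋃ t : V d, {ω | C ω ∩ ghost false h ω = {t}} := by
    ext ω; simp
  rw [this]
  exact MeasurableSet.iUnion fun t => (mvs_inter hC (ghost_MVS false h)).eq_set {t}

theorem real_ineq {h : ℝ} (h0 : 0 < h) (h1 : h ≤ 1) (n : ℕ) :
    (n : ℝ) * ((1 - Real.exp (-h)) * Real.exp (-(h * ((n - 1 : ℕ) : ℝ)))) +
        4 * (1 - Real.exp (-(h / 2 * n))) ≤ 4 * (1 - Real.exp (-(h * n))) := by
  rcases Nat.eq_zero_or_pos n with rfl | hn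
  · simp
  · have hc : ((n - 1 : ℕ) : ℝ) = (n : ℝ) - 1 := by
      rw [Nat.cast_sub hn, Nat.cast_one]
    have e1 : (1 - Real.exp (-h)) * Real.exp (-(h * ((n : ℝ) - 1))) =
        (Real.exp h - 1) * Real.exp (-(h * n)) := by
      have e0 : Real.exp (-(h * ((n : ℝ) - 1))) = Real.exp h * Real.exp (-(h * n)) := by
        rw [← Real.exp_add]; congr 1; ring
      have e00 : Real.exp (-h) * Real.exp h = 1 := by rw [← Real.exp_add]; simp
      rw [e0]
      linear_combination (-Real.exp (-(h * n))) * e00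
    have e2 : Real.exp (-(h / 2 * n)) = Real.exp (h / 2 * n) * Real.exp (-(h * n)) := by
      rw [← Real.exp_add]; congr 1; ring
    have e3 : h / 2 * n + 1 ≤ Real.exp (h / 2 * n) := Real.add_one_le_exp _
    have e4 : Real.exp h - 1 ≤ 2 * h := by
      have := Real.abs_exp_sub_one_le (x := h) (by rw [abs_of_pos h0]; exact h1)
      rw [abs_of_pos h0] at this
      exact (le_abs_self _).trans this
    rw [hc, e1, e2]
    have hx : 0 < Real.exp (-(h * n)) := Real.exp_pos _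
    have hn0 : (0 : ℝ) ≤ n := Nat.cast_nonneg n
    have f1 : (n : ℝ) * ((Real.exp h - 1) * Real.exp (-(h * n))) ≤
        (n : ℝ) * ((2 * h) * Real.exp (-(h * n))) :=
      mul_le_mul_of_nonneg_left (mul_le_mul_of_nonneg_right e4 hx.le) hn0
    have f2 : (h / 2 * n) * Real.exp (-(h * n)) ≤
        (Real.exp (h / 2 * n) - 1) * Real.exp (-(h * n)) :=
      mul_le_mul_of_nonneg_right (by linarith) hx.le
    nlinarith [f1, f2]

/-- the probability that a given finite set contains exactly one green vertex -/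
theorem Pr_one_le {h : ℝ} (h0 : 0 < h) (K : Finset (V d)) :
    Pr d {ω : Om d | ∃ t, (K : Set (V d)) ∩ ghost false h ω = {t}} ≤
      ENNReal.ofReal ((K.card : ℝ) *
        ((1 - Real.exp (-h)) * Real.exp (-(h * ((K.card - 1 : ℕ) : ℝ))))) := by
  classical
  have hsub : {ω : Om d | ∃ t, (K : Set (V d)) ∩ ghost false h ω = {t}} ⊆
      ⋃ t ∈ K, ({ω : Om d | t ∈ ghost false h ω} ∩
        {ω | ∀ v ∈ K.erase t, v ∉ ghost false h ω}) := by
    rintro ω ⟨t, ht⟩
    have ht1 : t ∈ (K : Set (V d)) ∩ ghost false h ω := by rw [ht]; rfl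
    rw [Set.mem_iUnion₂]
    refine ⟨t, Finset.mem_coe.1 ht1.1, ht1.2, ?_⟩
    intro v hv hvg
    rw [Finset.mem_erase] at hv
    have : v ∈ (K : Set (V d)) ∩ ghost false h ω := ⟨Finset.mem_coe.2 hv.2, hvg⟩
    rw [ht] at this
    exact hv.1 this
  have hone : ∀ t ∈ K, Pr d ({ω : Om d | t ∈ ghost false h ω} ∩
        {ω | ∀ v ∈ K.erase t, v ∉ ghost false h ω}) =
      ENNReal.ofReal ((1 - Real.exp (-h)) * Real.exp (-(h * ((K.card - 1 : ℕ) : ℝ)))) := by
    intro t ht
    have m2 : MeasurableSet {ω : Om d | ∀ v ∈ K.erase t, v ∉ ghost false h ω} := by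
      have : {ω : Om d | ∀ v ∈ K.erase t, v ∉ ghost false h ω} =
          ⋂ v : V d, ⋂ _ : v ∈ K.erase t, {ω | v ∈ ghost false h ω}ᶜ := by
        ext ω; simp only [Set.mem_ofPred_eq, Set.mem_iInter, Set.mem_compl_iff]
      rw [this]
      exact MeasurableSet.iInter fun v => MeasurableSet.iInter fun _ =>
        (ghost_MVS false h v).compl
    have hdep1 : DependsOn (fun ω : Om d => ω ∈ {ω : Om d | t ∈ ghost false h ω})
        {Sum.inr (t, false)} := by
      intro ω ω' hω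
      have := hω (Sum.inr (t, false)) rfl
      simp only [ghost, Set.mem_ofPred_eq, this]
    have hdep2 : DependsOn (fun ω : Om d => ω ∈ {ω : Om d | ∀ v ∈ K.erase t,
        v ∉ ghost false h ω}) {Sum.inr (t, false)}ᶜ := by
      intro ω ω' hω
      have key : ∀ v ∈ K.erase t, (v ∉ ghost false h ω ↔ v ∉ ghost false h ω') := by
        intro v hv
        rw [Finset.mem_erase] at hv
        have h2 : (Sum.inr (v, false) : Ix d) ∈ ({Sum.inr (t, false)} : Set (Ix d))ᶜ := by
          intro h3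
          rw [Set.mem_singleton_iff] at h3
          exact hv.1 (Prod.mk.inj (Sum.inr_injective h3)).1
        have := hω _ h2
        simp only [ghost, Set.mem_ofPred_eq, this]
      simp only [Set.mem_ofPred_eq, eq_iff_iff]
      exact ⟨fun h3 v hv => (key v hv).1 (h3 v hv), fun h3 v hv => (key v hv).2 (h3 v hv)⟩
    rw [Pr_inter_dep (S := {Sum.inr (t, false)}) (T := {Sum.inr (t, false)}ᶜ)
      disjoint_compl_right (ghost_MVS false h t) m2 hdep1 hdep2, Pr_ghost_fin false h0.le,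
      Finset.card_erase_of_mem ht]
    have hl : Pr d {ω : Om d | t ∈ ghost false h ω} = ENNReal.ofReal (1 - Real.exp (-h)) := by
      have := Pr_label_le (ι := Ix d) (Sum.inr (t, false)) (1 - Real.exp (-h))
      have h1 : min (1 - Real.exp (-h)) 1 = 1 - Real.exp (-h) :=
        min_eq_left (by linarith [Real.exp_pos (-h)])
      rw [h1] at this
      exact this
    rw [hl, ← ENNReal.ofReal_mul]
    have : Real.exp (-h) ≤ 1 := Real.exp_le_one_iff.2 (by linarith)
    linarith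
  calc _ ≤ _ := measure_mono hsub
    _ ≤ ∑ t ∈ K, Pr d ({ω : Om d | t ∈ ghost false h ω} ∩
        {ω | ∀ v ∈ K.erase t, v ∉ ghost false h ω}) := measure_biUnion_finset_le K _
    _ = ∑ t ∈ K, ENNReal.ofReal
        ((1 - Real.exp (-h)) * Real.exp (-(h * ((K.card - 1 : ℕ) : ℝ)))) :=
        Finset.sum_congr rfl hone
    _ = _ := by
        rw [Finset.sum_const, nsmul_eq_mul, ENNReal.ofReal_mul (Nat.cast_nonneg _),
          ENNReal.ofReal_natCast]

theorem one_sub_ex (h : ℝ) (K : Finset (V d)) :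
    1 - ex h (K : Set (V d)) = ENNReal.ofReal (1 - Real.exp (-(h * (K.card : ℝ)))) := by
  rw [ex_finset, ENNReal.ofReal_sub _ (Real.exp_pos _).le, ENNReal.ofReal_one]

/-- pointwise inequality -/
theorem ptw {h : ℝ} (h0 : 0 < h) (h1 : h ≤ 1) (K : Finset (V d)) :
    Pr d {ω : Om d | ∃ t, (K : Set (V d)) ∩ ghost false h ω = {t}} +
      4 * (1 - ex (h / 2) (K : Set (V d))) ≤ 4 * (1 - ex h (K : Set (V d))) := by
  have e1 : ∀ x : ℝ, 0 ≤ x → (0 : ℝ) ≤ 1 - Real.exp (-(x * (K.card : ℝ))) := by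
    intro x hx
    have : Real.exp (-(x * (K.card : ℝ))) ≤ 1 := Real.exp_le_one_iff.2 (by
      have : 0 ≤ x * (K.card : ℝ) := by positivity
      linarith)
    linarith
  have h4 : (4 : ℝ≥0∞) = ENNReal.ofReal 4 := by
    rw [ENNReal.ofReal_ofNat]
  rw [one_sub_ex, one_sub_ex, h4, ← ENNReal.ofReal_mul (by norm_num),
    ← ENNReal.ofReal_mul (by norm_num)]
  have hexp : Real.exp (-h) ≤ 1 := Real.exp_le_one_iff.2 (by linarith)
  have hn : (0 : ℝ) ≤ (K.card : ℝ) * ((1 - Real.exp (-h)) *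
      Real.exp (-(h * ((K.card - 1 : ℕ) : ℝ)))) := by
    refine mul_nonneg (Nat.cast_nonneg _) (mul_nonneg (by linarith) (Real.exp_pos _).le)
  refine (add_le_add (Pr_one_le h0 K) le_rfl).trans ?_
  rw [← ENNReal.ofReal_add hn (mul_nonneg (by norm_num) (e1 _ (by linarith)))]
  exact ENNReal.ofReal_le_ofReal (real_ineq h0 h1 K.card)

/-- the cluster of finitely many sources in a finite edge set is finite -/
theorem clS_finite (L : Finset (Sym2 (V d))) (D : Finset (V d)) (O : Set (Sym2 (V d)))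
    (hO : O ⊆ (L : Set (Sym2 (V d)))) : (ClS O (D : Set (V d))).Finite := by
  have hv : ({x | ∃ e ∈ L, x ∈ e} : Set (V d)).Finite := by
    have : ({x | ∃ e ∈ L, x ∈ e} : Set (V d)) = ⋃ e ∈ L, {x | x ∈ e} := by ext x; simp
    rw [this]
    refine Set.Finite.biUnion L.finite_toSet fun e _ => ?_
    induction e using Sym2.ind with
    | _ a b =>
      refine (Set.toFinite {a, b}).subset ?_
      intro x hx
      simpa using hx
  refine (D.finite_toSet.union hv).subset ?_
  rintro x ⟨a, ha, hr⟩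
  refine Rch.induct (P := fun z => z ∈ (D : Set (V d)) ∪ {x | ∃ e ∈ L, x ∈ e}) (Or.inl ha) ?_ hr
  intro b c _ hbc _
  exact Or.inr ⟨s(b, c), Finset.mem_coe.1 (hO hbc), Sym2.mem_mk_right b c⟩

theorem dep_clS (L D : Set _) (p : ℝ) :
    DependsOn (fun ω : Om d => ClS (opn p ω ∩ L) D) (gI d false)ᶜ :=
  dep_comp (dep_opn (d := d) p L (S := (gI d false)ᶜ) fun e _ => by simp [gI])
    (fun O => ClS O D)

theorem Pr_EvG (L : Set (Sym2 (V d))) (D : Set (V d)) (p : ℝ) {h : ℝ} (h0 : 0 < h) :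
    Pr d (EvG L D p h) = ∫⁻ ω, (1 - ex h (ClS (opn p ω ∩ L) D)) ∂Pr d := by
  have h1 := lintegral_ghost_hit (d := d) false h0 (C := fun ω => ClS (opn p ω ∩ L) D)
    (MES.clS (opnL_MES p L) D) (dep_clS L D p) (F := fun _ => 1) measurable_const
    (fun _ _ _ => rfl)
  simp only [one_mul, setLIntegral_const] at h1
  rw [← h1]
  congr 1
  ext ω
  constructor
  · rintro ⟨t, ht1, ht2⟩; exact ⟨t, ht2, ht1⟩
  · rintro ⟨t, ht1, ht2⟩; exact ⟨t, ht2, ht1⟩

theorem Pr_Ev1 (L : Set (Sym2 (V d))) (D : Set (V d)) (p h : ℝ) :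
    Pr d (Ev1 L D p h) = ∫⁻ ω, Pr d {ω' : Om d | ∃ t, ClS (opn p ω ∩ L) D ∩
      ghost false h ω' = {t}} ∂Pr d := by
  have h1 := lintegral_ghost_rel (d := d) false h (C := fun ω => ClS (opn p ω ∩ L) D)
    (dep_clS L D p) (F := fun _ => 1) measurable_const (fun _ _ _ => rfl)
    (fun S T => ∃ t, S ∩ T = {t}) (meas_one (MES.clS (opnL_MES p L) D) h)
    (fun S => meas_one (MVS.const S) h)
  simp only [one_mul, setLIntegral_const] at h1
  rw [← h1]
  rfl

theorem one_green (L : Finset (Sym2 (V d))) (D : Finset (V d)) (p : ℝ) {h : ℝ} (h0 : 0 < h)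
    (h1 : h ≤ 1) :
    (Pr d (Ev1 (L : Set (Sym2 (V d))) (D : Set (V d)) p h)).toReal ≤
      4 * (fF (L : Set (Sym2 (V d))) (D : Set (V d)) p h -
        fF (L : Set (Sym2 (V d))) (D : Set (V d)) p (h / 2)) := by
  have hmain : Pr d (Ev1 (L : Set (Sym2 (V d))) (D : Set (V d)) p h) +
      4 * Pr d (EvG (L : Set (Sym2 (V d))) (D : Set (V d)) p (h / 2)) ≤
      4 * Pr d (EvG (L : Set (Sym2 (V d))) (D : Set (V d)) p h) := by
    rw [Pr_Ev1, Pr_EvG _ _ _ h0, Pr_EvG _ _ _ (half_pos h0)]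
    have hC := MES.clS (opnL_MES (d := d) p (L : Set (Sym2 (V d)))) (D : Set (V d))
    have m1 : Measurable (fun ω : Om d =>
        4 * (1 - ex (h / 2) (ClS (opn p ω ∩ (L : Set (Sym2 (V d)))) (D : Set (V d))))) :=
      (measurable_const.sub (measurable_ex hC)).const_mul 4
    have m2 : ∀ x : ℝ, Measurable (fun ω : Om d =>
        1 - ex x (ClS (opn p ω ∩ (L : Set (Sym2 (V d)))) (D : Set (V d)))) := fun x =>
      measurable_const.sub (measurable_ex hC)
    rw [← lintegral_const_mul 4 (m2 (h / 2)), ← lintegral_const_mul 4 (m2 h),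
      ← lintegral_add_right _ m1]
    refine lintegral_mono fun ω => ?_
    have hf := clS_finite L D (opn p ω ∩ (L : Set (Sym2 (V d)))) Set.inter_subset_right
    have := ptw h0 h1 hf.toFinset
    rw [hf.coe_toFinset] at this
    exact this
  have ht : ∀ S : Set (Om d), Pr d S ≠ ⊤ := fun S => measure_ne_top _ _
  have h4 : (4 : ℝ≥0∞) ≠ ⊤ := ENNReal.ofNat_ne_top
  have := ENNReal.toReal_mono (ENNReal.mul_ne_top h4 (ht _)) hmain
  rw [ENNReal.toReal_add (ht _) (ENNReal.mul_ne_top h4 (ht _)), ENNReal.toReal_mul,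
    ENNReal.toReal_mul, ENNReal.toReal_ofNat] at this
  unfold fF
  linarith

end Pool.Agent.PB.AB
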