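import Pool.Agent.PB.AB.Defs
import Pool.Agent.PB.P.Act

/-!
# PROJECT PB, module AB-Two: BK for two distinct green end points (Section 12.3)
-/

set_option autoImplicit false
open MeasureTheory Filter Topology
open scoped ENNReal BigOperators

namespace Pool.Agent.PB.AB

variable {d : ℕ}

theorem isUp_EvG (L : Set (Sym2 (V d))) (D : Set (V d)) (p h : ℝ) : IsUp (EvG L D p h) := by
  rintro ω ω' hle ⟨t, h1, h2⟩
  refine ⟨t, ClS_mono ?_ _ h1, ?_⟩
  · exact fun e he => ⟨⟨he.1.1, le_trans (hle (Sum.inl e)) he.1.2⟩, he.2⟩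
  · have h3 : ((ω (Sum.inr (t, false)) : unitInterval) : ℝ) ≤ 1 - Real.exp (-h) := h2
    have h4 : ((ω' (Sum.inr (t, false)) : unitInterval) : ℝ) ≤
      ((ω (Sum.inr (t, false)) : unitInterval) : ℝ) := hle (Sum.inr (t, false))
    exact h4.trans h3

theorem Ev2_subset (L : Set (Sym2 (V d))) (D1 D2 : Set (V d)) (p h : ℝ) :
    Ev2 L D1 D2 p h ⊆ box (EvG L D1 p h) (EvG L D2 p h) := by
  classical
  rintro ω ⟨a, ha, a', ha', t, ht, t', ht', hne, hc⟩
  obtain ⟨S, hS1, hS2, hS3, hS4⟩ := hc.exists_finite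
  have key : ∀ (T : Set (Sym2 (V d))) (hT : T.Finite) (g : V d), T ⊆ opn p ω ∩ L →
      g ∈ ghost false h ω → ∀ (D : Set (V d)) (c : V d), c ∈ D → Rch T c g →
      restr ((insert (Sum.inr (g, false)) (hT.toFinset.image Sum.inl) : Finset (Ix d)) :
        Set (Ix d)) ω ∈ EvG L D p h := by
    intro T hT g hsub hg D c hc hr
    refine ⟨g, ⟨c, hc, hr.mono ?_⟩, ?_⟩
    · intro e he
      refine ⟨⟨(hsub he).1.1, ?_⟩, (hsub he).2⟩
      rw [restr_of_mem ω (by simp [he])]
      exact (hsub he).1.2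
    · show ((restr _ ω (Sum.inr (g, false)) : unitInterval) : ℝ) ≤ _
      rw [restr_of_mem ω (by simp)]
      exact hg
  refine ⟨insert (Sum.inr (t, false)) ((hS2 0).toFinset.image Sum.inl),
    insert (Sum.inr (t', false)) ((hS2 1).toFinset.image Sum.inl), ?_, ?_, ?_⟩
  · rw [Finset.disjoint_left]
    intro i hi hi'
    simp only [Finset.mem_insert, Finset.mem_image, Set.Finite.mem_toFinset] at hi hi'
    rcases hi with rfl | ⟨e, he, rfl⟩
    · rcases hi' with h1 | ⟨e, he, h1⟩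
      · apply hne
        simpa using h1
      · exact absurd h1 (by simp)
    · rcases hi' with h1 | ⟨e', he', h1⟩
      · exact absurd h1 (by simp)
      · cases Sum.inl_injective h1
        exact Set.disjoint_left.1 (hS3 (show (0 : Fin 2) ≠ 1 by decide)) he he'
  · exact key (S 0) (hS2 0) t (hS1 0) ht D1 a ha (hS4 0)
  · exact key (S 1) (hS2 1) t' (hS1 1) ht' D2 a' ha' (hS4 1)

theorem Ev2_le (L : Set (Sym2 (V d))) (D1 D2 : Set (V d)) (p h : ℝ) :
    Pr d (Ev2 L D1 D2 p h) ≤ Pr d (EvG L D1 p h) * Pr d (EvG L D2 p h) :=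
  (measure_mono (Ev2_subset L D1 D2 p h)).trans
    (bk2_Pr (measurableSet_EvG L D1 p h) (measurableSet_EvG L D2 p h) (isUp_EvG L D1 p h)
      (isUp_EvG L D2 p h))

theorem EvG_single_le (L : Set (Sym2 (V d))) (v : V d) (p h : ℝ) :
    Pr d (EvG L {v} p h) ≤ Mg d p h := by
  have h1 : EvG L {v} p h ⊆ {ω | act (trI v) ω ∈ {ω : Om d | RchT (opn p ω) 0 (ghost false h ω)}} := by
    rintro ω ⟨t, ⟨a, ha, hr⟩, h2⟩
    rw [Set.mem_singleton_iff] at ha
    subst ha
    refine ⟨(trI a).symm t, ?_, ?_⟩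
    · rw [mem_ghost_act, Equiv.apply_symm_apply]; exact h2
    · rw [Rch_act (trI_aut a), Equiv.apply_symm_apply]
      have : trI a 0 = a := by simp [trI_apply]
      rw [this]
      exact hr.mono Set.inter_subset_left
  refine (measure_mono h1).trans ?_
  rw [Pr_act]
  exact le_rfl

end Pool.Agent.PB.AB
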